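import Pool.Agent.H36.KT.Tetra

set_option autoImplicit false

/-!
# The dihedral angles around an edge
-/

namespace H36KT

open Real

theorem phi_mul (u x y z : E3) :
    phi u x y * phi u y z =
      ((dot3 u u * dot3 y y - dot3 u y * dot3 u y : ℝ) : ℂ) * phi u x z := by
  have hs : √(dot3 u u) * √(dot3 u u) = dot3 u u := Real.mul_self_sqrt (dot3_self_nonneg u)
  apply Complex.ext
  · simp only [phi, Complex.mul_re, Complex.ofReal_re, Complex.ofReal_im, zero_mul, sub_zero]
    generalize √(dot3 u u) = m at hs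
    have : m * det3 u x y * (m * det3 u y z) = dot3 u u * (det3 u x y * det3 u y z) := by
      rw [← hs]; ring
    rw [this]
    simp only [dot3, det3]
    ring
  · simp only [phi, Complex.mul_im, Complex.ofReal_re, Complex.ofReal_im, zero_mul, add_zero]
    generalize √(dot3 u u) = m at hs
    have : (dot3 u u * dot3 x y - dot3 u x * dot3 u y) * det3 u y z +
        det3 u x y * (dot3 u u * dot3 y z - dot3 u y * dot3 u z) =
        (dot3 u u * dot3 y y - dot3 u y * dot3 u y) * det3 u x z := by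
      simp only [dot3, det3]
      ring
    linear_combination m * this

theorem phi_self (u x : E3) :
    phi u x x = ((dot3 u u * dot3 x x - dot3 u x * dot3 u x : ℝ) : ℂ) := by
  apply Complex.ext
  · simp [phi]
  · simp only [phi, Complex.ofReal_im]
    have : det3 u x x = 0 := by simp only [det3]; ring
    rw [this, mul_zero]

theorem c_pos (u x y : E3) (h : det3 u x y ≠ 0) :
    0 < dot3 u u * dot3 x x - dot3 u x * dot3 u x := by
  have h1 := det3_sq_le u x y
  have h2 : 0 < det3 u x y ^ 2 := by positivity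
  have h3 := dot3_self_nonneg y
  by_contra hcon
  have hcon := not_lt.1 hcon
  have : (dot3 u u * dot3 x x - dot3 u x * dot3 u x) * dot3 y y ≤ 0 :=
    mul_nonpos_of_nonpos_of_nonneg hcon h3
  linarith

theorem det3_swap (u x y : E3) : det3 u y x = - det3 u x y := by
  simp only [det3]; ring

theorem c_pos' (u x y : E3) (h : det3 u x y ≠ 0) :
    0 < dot3 u u * dot3 y y - dot3 u y * dot3 u y := by
  refine c_pos u y x ?_
  rw [det3_swap]
  exact neg_ne_zero.2 h

theorem phi_symm (u x y : E3) : phi u y x = (starRingEnd ℂ) (phi u x y) := by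
  apply Complex.ext
  · simp only [phi, Complex.conj_re, dot3]
    ring
  · simp only [phi, Complex.conj_im]
    rw [det3_swap]
    ring

theorem abs_arg_conj (z : ℂ) : |Complex.arg ((starRingEnd ℂ) z)| = |Complex.arg z| := by
  rw [Complex.arg_conj]
  split_ifs with h
  · rw [h]
  · rw [abs_neg]

theorem dih_symm (A B C D : E3) : dih A B D C = dih A B C D := by
  unfold dih
  rw [phi_symm, abs_arg_conj]

theorem dih_nonneg (A B C D : E3) : 0 ≤ dih A B C D := abs_nonneg _

theorem arg_pos_of_im_pos {z : ℂ} (h : 0 < z.im) : 0 < Complex.arg z := by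
  have h1 : 0 ≤ Complex.arg z := Complex.arg_nonneg_iff.2 h.le
  rcases h1.lt_or_eq with h2 | h2
  · exact h2
  · exfalso
    have h3 := Complex.arg_eq_zero_iff.1 h2.symm
    exact h.ne' h3.2

theorem sum_arg_ge_pos (a b c d : ℂ) (P : ℝ) (hP : 0 < P) (h : a * b * c * d = (P : ℂ))
    (ha : 0 < a.im) (hb : 0 < b.im) (hc : 0 < c.im) (hd : 0 < d.im) :
    2 * π ≤ |Complex.arg a| + |Complex.arg b| + |Complex.arg c| + |Complex.arg d| := by
  have ha0 : a ≠ 0 := by rintro rfl; simp at ha
  have hb0 : b ≠ 0 := by rintro rfl; simp at hb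
  have hc0 : c ≠ 0 := by rintro rfl; simp at hc
  have hd0 : d ≠ 0 := by rintro rfl; simp at hd
  have pa := arg_pos_of_im_pos ha
  have pb := arg_pos_of_im_pos hb
  have pc := arg_pos_of_im_pos hc
  have pd := arg_pos_of_im_pos hd
  have h1 : ((Complex.arg (a * b * c * d) : ℝ) : Real.Angle) =
      Complex.arg a + Complex.arg b + Complex.arg c + Complex.arg d := by
    rw [Complex.arg_mul_coe_angle (mul_ne_zero (mul_ne_zero ha0 hb0) hc0) hd0,
      Complex.arg_mul_coe_angle (mul_ne_zero ha0 hb0) hc0,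
      Complex.arg_mul_coe_angle ha0 hb0]
  rw [h, Complex.arg_ofReal_of_nonneg hP.le] at h1
  have h2 : ((Complex.arg a + Complex.arg b + Complex.arg c + Complex.arg d : ℝ) : Real.Angle) =
      ((0 : ℝ) : Real.Angle) := by
    rw [h1]
    push_cast
    rfl
  rw [Real.Angle.angle_eq_iff_two_pi_dvd_sub] at h2
  obtain ⟨k, hk⟩ := h2
  rw [sub_zero] at hk
  have hk0 : 0 < k := by
    by_contra hcon
    have hcon : k ≤ 0 := not_lt.1 hcon
    have : (k : ℝ) ≤ 0 := by exact_mod_cast hcon
    have hpi := Real.pi_pos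
    nlinarith
  have hk1 : (1 : ℝ) ≤ k := by exact_mod_cast hk0
  rw [abs_of_pos pa, abs_of_pos pb, abs_of_pos pc, abs_of_pos pd, hk]
  have hpi := Real.pi_pos
  nlinarith

theorem sum_arg_ge (a b c d : ℂ) (P : ℝ) (hP : 0 < P) (h : a * b * c * d = (P : ℂ))
    (hab : 0 < a.im * b.im) (hbc : 0 < b.im * c.im) (hcd : 0 < c.im * d.im) :
    2 * π ≤ |Complex.arg a| + |Complex.arg b| + |Complex.arg c| + |Complex.arg d| := by
  rcases pos_and_pos_or_neg_and_neg_of_mul_pos hab with ⟨h1, h2⟩ | ⟨h1, h2⟩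
  · have h3 : 0 < c.im := (pos_iff_pos_of_mul_pos hbc).1 h2
    have h4 : 0 < d.im := (pos_iff_pos_of_mul_pos hcd).1 h3
    exact sum_arg_ge_pos a b c d P hP h h1 h2 h3 h4
  · have h3 : c.im < 0 := by
      rcases pos_and_pos_or_neg_and_neg_of_mul_pos hbc with ⟨h5, _⟩ | ⟨_, h5⟩
      · linarith
      · exact h5
    have h4 : d.im < 0 := by
      rcases pos_and_pos_or_neg_and_neg_of_mul_pos hcd with ⟨h5, _⟩ | ⟨_, h5⟩
      · linarith
      · exact h5
    have := sum_arg_ge_pos ((starRingEnd ℂ) a) ((starRingEnd ℂ) b) ((starRingEnd ℂ) c)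
      ((starRingEnd ℂ) d) P hP (by
        rw [← map_mul, ← map_mul, ← map_mul, h, Complex.conj_ofReal])
      (by rw [Complex.conj_im]; linarith) (by rw [Complex.conj_im]; linarith)
      (by rw [Complex.conj_im]; linarith) (by rw [Complex.conj_im]; linarith)
    rw [abs_arg_conj, abs_arg_conj, abs_arg_conj, abs_arg_conj] at this
    exact this

/-- Four consistently oriented dihedral angles around an edge have sum at least `2π`. -/
theorem four_angles (A B P0 P1 P2 P3 : E3)
    (h01 : 0 < det3 (B - A) (P0 - A) (P1 - A) * det3 (B - A) (P1 - A) (P2 - A))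
    (h12 : 0 < det3 (B - A) (P1 - A) (P2 - A) * det3 (B - A) (P2 - A) (P3 - A))
    (h23 : 0 < det3 (B - A) (P2 - A) (P3 - A) * det3 (B - A) (P3 - A) (P0 - A)) :
    2 * π ≤ dih A B P0 P1 + dih A B P1 P2 + dih A B P2 P3 + dih A B P3 P0 := by
  set u := B - A with hu
  set q0 := P0 - A with hq0
  set q1 := P1 - A with hq1
  set q2 := P2 - A with hq2
  set q3 := P3 - A with hq3
  have hu0 : 0 < dot3 u u := by
    rcases (dot3_self_nonneg u).lt_or_eq with h | h
    · exact h
    · exfalso
      have h1 := det3_sq_le' u q0 q1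
      rw [← h] at h1
      have h2 : det3 u q0 q1 = 0 := by
        have : det3 u q0 q1 ^ 2 ≤ 0 := by linarith
        nlinarith [sq_nonneg (det3 u q0 q1)]
      rw [h2] at h01
      simp at h01
  have hs : 0 < √(dot3 u u) := Real.sqrt_pos.2 hu0
  have n01 : det3 u q0 q1 ≠ 0 := by
    intro h; rw [h] at h01; simp at h01
  have n12 : det3 u q1 q2 ≠ 0 := by
    intro h; rw [h] at h01; simp at h01
  have n23 : det3 u q2 q3 ≠ 0 := by
    intro h; rw [h] at h12; simp at h12
  have n30 : det3 u q3 q0 ≠ 0 := by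
    intro h; rw [h] at h23; simp at h23
  have p0 := c_pos u q0 q1 n01
  have p1 := c_pos u q1 q2 n12
  have p2 := c_pos u q2 q3 n23
  have p3 := c_pos u q3 q0 n30
  have hprod : phi u q0 q1 * phi u q1 q2 * phi u q2 q3 * phi u q3 q0 =
      (((dot3 u u * dot3 q1 q1 - dot3 u q1 * dot3 u q1) *
        (dot3 u u * dot3 q2 q2 - dot3 u q2 * dot3 u q2) *
        (dot3 u u * dot3 q3 q3 - dot3 u q3 * dot3 u q3) *
        (dot3 u u * dot3 q0 q0 - dot3 u q0 * dot3 u q0) : ℝ) : ℂ) := by
    rw [phi_mul, mul_assoc _ (phi u q0 q2), phi_mul, mul_assoc, mul_assoc, phi_mul, phi_self]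
    push_cast
    ring
  have him : ∀ x y : E3, (phi u x y).im = √(dot3 u u) * det3 u x y := fun x y => rfl
  have hmul : ∀ s a b : ℝ, 0 < s → 0 < a * b → 0 < s * a * (s * b) := by
    intro s a b hs hab
    have : s * a * (s * b) = s * s * (a * b) := by ring
    rw [this]
    positivity
  have := sum_arg_ge _ _ _ _ _ (by positivity) hprod
    (by rw [him, him]; exact hmul _ _ _ hs h01) (by rw [him, him]; exact hmul _ _ _ hs h12)
    (by rw [him, him]; exact hmul _ _ _ hs h23)
  exact this

end H36KT
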