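import Pool.Agent.H36.KT.Defs

set_option autoImplicit false

/-!
# Coverings by equal balls, their density, and Delaunay triangulations of Kuhn type
-/

namespace H36KT

open MeasureTheory

/-- The closed balls of radius `r > 0` centred at the points `x i` cover three-space. -/
def IsBallCovering {ι : Type*} (x : ι → E3) (r : ℝ) : Prop :=
  0 < r ∧ ⋃ i, Metric.closedBall (x i) r = Set.univ

/-- The density of the family of balls of radius `r` with centres `x i`: the lower limit, for
`R → ∞`, of `#{i : |x i| ≤ R} · vol (r B) / vol (R B)`. -/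
noncomputable def density {ι : Type*} (x : ι → E3) (r : ℝ) : ENNReal :=
  Filter.liminf (fun R : ℝ => ((({i | ‖x i‖ ≤ R} : Set ι).encard : ℕ∞) : ENNReal) *
    volume (Metric.closedBall (0 : E3) r) / volume (Metric.closedBall (0 : E3) R)) Filter.atTop

/-- The vertex number `i` of the simplex `(z, σ)` of the Kuhn (Freudenthal) triangulation of
`ℝ³` with vertex set `ℤ³`: `z + e_{σ 0} + ... + e_{σ (i - 1)}`. -/
def kuhnVertex (z : Fin 3 → ℤ) (σ : Equiv.Perm (Fin 3)) (i : Fin 4) : Fin 3 → ℤ :=
  fun j => z j + if (σ.symm j : ℕ) < (i : ℕ) then 1 else 0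

/-- The tetrahedron with vertices `p v`, where `v` runs through the vertices of the simplex
`(z, σ)` of the Kuhn triangulation. -/
def cell (p : (Fin 3 → ℤ) → E3) (z : Fin 3 → ℤ) (σ : Equiv.Perm (Fin 3)) : Set E3 :=
  convexHull ℝ (Set.range fun i => p (kuhnVertex z σ i))

/-- The points `p z`, `z ∈ ℤ³`, have a Delaunay triangulation of Kuhn type: the tetrahedra
`cell p z σ` are not degenerate, have pairwise disjoint interiors, cover the space, and each of them
has a circumscribed ball with none of the points `p w` in its interior. -/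
structure IsKuhnDelaunay (p : (Fin 3 → ℤ) → E3) : Prop where
  nondeg : ∀ z σ, AffineIndependent ℝ fun i => p (kuhnVertex z σ i)
  disjoint : ∀ z σ z' σ', (z, σ) ≠ (z', σ') →
    Disjoint (interior (cell p z σ)) (interior (cell p z' σ'))
  cover : ⋃ z, ⋃ σ, cell p z σ = Set.univ
  empty_sphere : ∀ z σ, ∃ (o : E3) (ρ : ℝ),
    (∀ i, dist (p (kuhnVertex z σ i)) o = ρ) ∧ ∀ w, ρ ≤ dist (p w) o

end H36KT
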