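import Mathlib

set_option autoImplicit false

/-!
# Coverings of three-space by equal balls: definitions and auxiliary quantities (MP_94c33d_co)
-/

namespace H36KT

open MeasureTheory

/-- Euclidean three-space. -/
abbrev E3 := EuclideanSpace ℝ (Fin 3)

/-- The determinant of three vectors. -/
def det3 (a b c : E3) : ℝ :=
  a 0 * (b 1 * c 2 - b 2 * c 1) - a 1 * (b 0 * c 2 - b 2 * c 0) + a 2 * (b 0 * c 1 - b 1 * c 0)

/-- The scalar product in coordinates. -/
def dot3 (a b : E3) : ℝ := a 0 * b 0 + a 1 * b 1 + a 2 * b 2

/-- The complex number whose argument is the oriented angle (around the axis `u`) from the half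
plane of `x` to the half plane of `y`. -/
noncomputable def phi (u x y : E3) : ℂ :=
  ⟨dot3 u u * dot3 x y - dot3 u x * dot3 u y, Real.sqrt (dot3 u u) * det3 u x y⟩

/-- The dihedral angle at the edge `AB` of the tetrahedron `ABCD`. -/
noncomputable def dih (A B C D : E3) : ℝ := |Complex.arg (phi (B - A) (C - A) (D - A))|

end H36KT
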