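import Pool.Agent.H36.KT.Defs

set_option autoImplicit false

/-!
# Two tetrahedra with a common facet and disjoint interiors lie on different sides of it

Proof: otherwise the two determinants have the same sign, so
`D' - A = a (B - A) + b (C - A) + c (D - A)` with `c > 0`. For small `ε > 0` the point
`(A + B + C)/3 + ε (D' - A)` has positive barycentric coordinates in both tetrahedra, so it lies in
both interiors (`AffineBasis.interior_convexHull`, or a direct argument), a contradiction.
-/

namespace H36KT

/-- Cramer's rule -/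
theorem cramer3 (u v w x : E3) :
    det3 u v w • x = det3 x v w • u + det3 u x w • v + det3 u v x • w := by
  ext i
  fin_cases i <;> simp [det3] <;> ring

theorem det3_continuous₁ (v w A : E3) : Continuous fun x : E3 => det3 (x - A) v w := by
  unfold det3; fun_prop

theorem det3_continuous₂ (u w A : E3) : Continuous fun x : E3 => det3 u (x - A) w := by
  unfold det3; fun_prop

theorem det3_continuous₃ (u v A : E3) : Continuous fun x : E3 => det3 u v (x - A) := by
  unfold det3; fun_prop

theorem mem_hull_of_coord (A B C D x : E3) (a b c : ℝ) (ha : 0 ≤ a) (hb : 0 ≤ b) (hc : 0 ≤ c)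
    (h1 : a + b + c ≤ 1) (hx : x - A = a • (B - A) + b • (C - A) + c • (D - A)) :
    x ∈ convexHull ℝ ({A, B, C, D} : Set E3) := by
  have hcv := convex_convexHull ℝ ({A, B, C, D} : Set E3)
  have hs := subset_convexHull ℝ ({A, B, C, D} : Set E3)
  have key := hcv.sum_mem (t := (Finset.univ : Finset (Fin 4))) (w := ![1 - a - b - c, a, b, c])
    (z := ![A, B, C, D]) ?_ ?_ ?_
  · simp only [Fin.sum_univ_four, Matrix.cons_val_zero, Matrix.cons_val_one, Matrix.cons_val] at key
    convert key using 1
    have : x = A + (a • (B - A) + b • (C - A) + c • (D - A)) := by rw [← hx]; abel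
    rw [this]
    module
  · intro i _
    fin_cases i
    · simp; linarith
    · simpa using ha
    · simpa using hb
    · simpa using hc
  · simp [Fin.sum_univ_four]
    ring
  · intro i _
    apply hs
    fin_cases i <;> simp

theorem mem_interior_of_coord (A B C D x : E3) (h : det3 (B - A) (C - A) (D - A) ≠ 0)
    (a b c : ℝ) (ha : 0 < a) (hb : 0 < b) (hc : 0 < c)
    (h1 : a + b + c < 1) (hx : x - A = a • (B - A) + b • (C - A) + c • (D - A)) :
    x ∈ interior (convexHull ℝ ({A, B, C, D} : Set E3)) := by
  set u := B - A with hu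
  set v := C - A with hv
  set w := D - A with hw
  set d := det3 u v w with hd
  rw [mem_interior]
  refine ⟨{y : E3 | 0 < det3 (y - A) v w / d ∧ 0 < det3 u (y - A) w / d ∧ 0 < det3 u v (y - A) / d ∧
    det3 (y - A) v w / d + det3 u (y - A) w / d + det3 u v (y - A) / d < 1}, ?_, ?_, ?_⟩
  · rintro y ⟨h2, h3, h4, h5⟩
    refine mem_hull_of_coord A B C D y _ _ _ h2.le h3.le h4.le h5.le ?_
    have hcr := cramer3 u v w (y - A)
    have h6 : d⁻¹ • (d • (y - A)) = y - A := by rw [smul_smul, inv_mul_cancel₀ h, one_smul]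
    have h7 : d⁻¹ • (d • (y - A)) = (det3 (y - A) v w / d) • u + (det3 u (y - A) w / d) • v +
        (det3 u v (y - A) / d) • w := by
      rw [hd, hcr]
      simp only [smul_add, smul_smul, div_eq_inv_mul]
    exact h6.symm.trans h7
  · have c1 := (det3_continuous₁ v w A).div_const d
    have c2 := (det3_continuous₂ u w A).div_const d
    have c3 := (det3_continuous₃ u v A).div_const d
    exact (isOpen_lt continuous_const c1).inter ((isOpen_lt continuous_const c2).inter
      ((isOpen_lt continuous_const c3).inter (isOpen_lt ((c1.add c2).add c3) continuous_const)))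
  · have e1 : det3 (x - A) v w = a * d := by
      rw [hx, hd]; simp [det3]; ring
    have e2 : det3 u (x - A) w = b * d := by
      rw [hx, hd]; simp [det3]; ring
    have e3 : det3 u v (x - A) = c * d := by
      rw [hx, hd]; simp [det3]; ring
    show _ ∧ _ ∧ _ ∧ _
    rw [e1, e2, e3, mul_div_cancel_right₀ _ h, mul_div_cancel_right₀ _ h, mul_div_cancel_right₀ _ h]
    exact ⟨ha, hb, hc, h1⟩

theorem facet_sign (A B C D D' : E3) (h : det3 (B - A) (C - A) (D - A) ≠ 0)
    (h' : det3 (B - A) (C - A) (D' - A) ≠ 0)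
    (hdisj : Disjoint (interior (convexHull ℝ ({A, B, C, D} : Set E3)))
      (interior (convexHull ℝ ({A, B, C, D'} : Set E3)))) :
    det3 (B - A) (C - A) (D - A) * det3 (B - A) (C - A) (D' - A) < 0 := by
  by_contra hcon
  push Not at hcon
  set u := B - A with hu
  set v := C - A with hv
  set w := D - A with hw
  set w' := D' - A with hw'
  have hpos : 0 < det3 u v w * det3 u v w' := lt_of_le_of_ne hcon (mul_ne_zero h h').symm
  set a := det3 w' v w / det3 u v w with ha
  set b := det3 u w' w / det3 u v w with hb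
  set c := det3 u v w' / det3 u v w with hc
  have hcpos : 0 < c := by
    rw [hc, div_eq_mul_inv]
    have : det3 u v w' * (det3 u v w)⁻¹ = (det3 u v w * det3 u v w') * ((det3 u v w)⁻¹) ^ 2 := by
      field_simp
    rw [this]
    exact mul_pos hpos (by positivity)
  have hw'e : w' = a • u + b • v + c • w := by
    have hcr := cramer3 u v w w'
    have h6 : (det3 u v w)⁻¹ • (det3 u v w • w') = w' := by
      rw [smul_smul, inv_mul_cancel₀ h, one_smul]
    have h7 : (det3 u v w)⁻¹ • (det3 u v w • w') = a • u + b • v + c • w := by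
      rw [hcr]
      simp only [smul_add, smul_smul, ha, hb, hc, div_eq_inv_mul]
    exact h6.symm.trans h7
  obtain ⟨ε, he, he1⟩ : ∃ ε : ℝ, 0 < ε ∧ ε * (|a| + |b| + c + 1) < 1 / 3 := by
    refine ⟨1 / (4 * (|a| + |b| + c + 1)), by positivity, ?_⟩
    rw [one_div, mul_inv, mul_assoc, inv_mul_cancel₀ (by positivity)]
    norm_num
  have hea : |ε * a| = ε * |a| := by rw [abs_mul, abs_of_pos he]
  have heb : |ε * b| = ε * |b| := by rw [abs_mul, abs_of_pos he]
  have ha0 := abs_nonneg a
  have hb0 := abs_nonneg b
  have ha1 := abs_le.1 hea.le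
  have hb1 := abs_le.1 heb.le
  have p1 : 0 ≤ ε * |a| := by positivity
  have p2 : 0 ≤ ε * |b| := by positivity
  have p3 : 0 < ε * c := by positivity
  have hexp : ε * (|a| + |b| + c + 1) = ε * |a| + ε * |b| + ε * c + ε := by ring
  rw [hexp] at he1
  set x : E3 := A + ((1 / 3 : ℝ) • u + (1 / 3 : ℝ) • v + ε • w') with hx
  have m1 : x ∈ interior (convexHull ℝ ({A, B, C, D} : Set E3)) := by
    refine mem_interior_of_coord A B C D x h (1 / 3 + ε * a) (1 / 3 + ε * b) (ε * c) ?_ ?_ p3 ?_ ?_
    · linarith [ha1.1]
    · linarith [hb1.1]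
    · linarith [ha1.2, hb1.2]
    · rw [hx, add_sub_cancel_left, hw'e]
      module
  have m2 : x ∈ interior (convexHull ℝ ({A, B, C, D'} : Set E3)) := by
    refine mem_interior_of_coord A B C D' x h' (1 / 3) (1 / 3) ε (by norm_num) (by norm_num) he ?_ ?_
    · linarith
    · rw [hx, add_sub_cancel_left]
  exact Set.disjoint_left.1 hdisj m1 m2

/-- Affinely independent quadruples have nonzero determinant. -/
theorem det3_ne_zero (v : Fin 4 → E3) (h : AffineIndependent ℝ v) :
    det3 (v 1 - v 0) (v 2 - v 0) (v 3 - v 0) ≠ 0 := by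
  rw [affineIndependent_iff_linearIndependent_vsub ℝ v 0] at h
  have h1 : LinearIndependent ℝ (fun i : Fin 3 => v i.succ - v 0) := by
    have := h.comp (fun i : Fin 3 => (⟨i.succ, Fin.succ_ne_zero i⟩ : {x : Fin 4 // x ≠ 0})) (by
      intro i j hij
      simpa using hij)
    exact this
  have h2 := h1.map' (WithLp.linearEquiv 2 ℝ (Fin 3 → ℝ)).toLinearMap (LinearEquiv.ker _)
  set M : Matrix (Fin 3) (Fin 3) ℝ := Matrix.of fun i j => (v i.succ - v 0) j with hM
  have h3 : LinearIndependent ℝ M.row := h2
  rw [Matrix.linearIndependent_rows_iff_isUnit] at h3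
  have h4 : M.det ≠ 0 := by
    rw [Matrix.isUnit_iff_isUnit_det] at h3
    exact h3.ne_zero
  intro h0
  apply h4
  rw [Matrix.det_fin_three, ← h0]
  simp only [hM, Matrix.of_apply, det3]
  have e1 : (Fin.succ 0 : Fin 4) = 1 := rfl
  have e2 : (Fin.succ 1 : Fin 4) = 2 := rfl
  have e3 : (Fin.succ 2 : Fin 4) = 3 := rfl
  rw [e1, e2, e3]
  ring

end H36KT
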