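import Pool.Agent.H36.KT.Defs

set_option autoImplicit false

/-!
# The inequality in one real variable
-/

namespace H36KT

open Real

/-- the function of the main inequality -/
noncomputable def gH (x : ℝ) : ℝ :=
  25 * √5 * (x ^ 2 / ((1 + 4 * x ^ 2) * √(1 + 4 * x ^ 2))) + 4 * arctan x

theorem hasDerivAt_gH (x : ℝ) :
    HasDerivAt gH (50 * √5 * (x * (1 - 2 * x ^ 2)) / ((1 + 4 * x ^ 2) ^ 2 * √(1 + 4 * x ^ 2)) +
      4 / (1 + x ^ 2)) x := by
  have h0 : (0 : ℝ) < 1 + 4 * x ^ 2 := by positivity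
  have hs : 0 < √(1 + 4 * x ^ 2) := Real.sqrt_pos.2 h0
  have hss : √(1 + 4 * x ^ 2) * √(1 + 4 * x ^ 2) = 1 + 4 * x ^ 2 := Real.mul_self_sqrt h0.le
  have h1 : HasDerivAt (fun x : ℝ => 1 + 4 * x ^ 2) (8 * x) x := by
    have := ((hasDerivAt_id x).pow 2).const_mul 4 |>.const_add 1
    refine this.congr_deriv ?_
    simp
    ring
  have h2 := h1.sqrt h0.ne'
  have h3 : HasDerivAt (fun x : ℝ => (1 + 4 * x ^ 2) * √(1 + 4 * x ^ 2))
      (8 * x * √(1 + 4 * x ^ 2) + (1 + 4 * x ^ 2) * (8 * x / (2 * √(1 + 4 * x ^ 2)))) x := h1.mul h2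
  have h4 : HasDerivAt (fun x : ℝ => x ^ 2) (2 * x) x := by
    refine ((hasDerivAt_id x).pow 2).congr_deriv ?_
    simp
  have h5 := h4.div h3 (by positivity)
  have h6 := (h5.const_mul (25 * √5)).add ((Real.hasDerivAt_arctan x).const_mul 4)
  refine h6.congr_deriv ?_
  have e1 : 8 * x * √(1 + 4 * x ^ 2) + (1 + 4 * x ^ 2) * (8 * x / (2 * √(1 + 4 * x ^ 2))) =
      12 * x * √(1 + 4 * x ^ 2) := by
    have : (1 + 4 * x ^ 2) * (8 * x / (2 * √(1 + 4 * x ^ 2))) = 4 * x * √(1 + 4 * x ^ 2) := by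
      rw [mul_div_assoc', div_eq_iff (by positivity)]
      linear_combination (-8 * x) * hss
    rw [this]; ring
  rw [e1]
  congr 1
  · generalize √(1 + 4 * x ^ 2) = w at *
    rw [mul_div_assoc', div_eq_div_iff (by positivity) (by positivity)]
    have : w ^ 2 = 1 + 4 * x ^ 2 := by rw [sq]; exact hss
    ring_nf
  · ring

theorem deriv_gH_nonneg {x : ℝ} (h0 : 0 ≤ x) (h1 : x ≤ 1) :
    0 ≤ 50 * √5 * (x * (1 - 2 * x ^ 2)) / ((1 + 4 * x ^ 2) ^ 2 * √(1 + 4 * x ^ 2)) +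
      4 / (1 + x ^ 2) := by
  have hp : (0 : ℝ) < 1 + 4 * x ^ 2 := by positivity
  have hs : 0 < √(1 + 4 * x ^ 2) := Real.sqrt_pos.2 hp
  rcases le_total (2 * x ^ 2) 1 with h | h
  · have : 0 ≤ 1 - 2 * x ^ 2 := by linarith
    positivity
  · have hd : 0 < (1 + 4 * x ^ 2) ^ 2 * √(1 + 4 * x ^ 2) := by positivity
    have hq : (0 : ℝ) < 1 + x ^ 2 := by positivity
    rw [div_add_div _ _ hd.ne' hq.ne']
    refine div_nonneg ?_ (by positivity)
    -- 50 √5 x (2x²-1)(1+x²) ≤ 4 (1+4x²)^2 √(1+4x²)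
    have key : 50 * √5 * (x * (2 * x ^ 2 - 1)) * (1 + x ^ 2) ≤
        4 * ((1 + 4 * x ^ 2) ^ 2 * √(1 + 4 * x ^ 2)) := by
      refine abs_le_of_sq_le_sq' ?_ (by positivity) |>.2
      have e1 : (50 * √5 * (x * (2 * x ^ 2 - 1)) * (1 + x ^ 2)) ^ 2 =
          12500 * x ^ 2 * (2 * x ^ 2 - 1) ^ 2 * (1 + x ^ 2) ^ 2 := by
        have : √5 ^ 2 = 5 := Real.sq_sqrt (by norm_num)
        calc _ = 2500 * √5 ^ 2 * x ^ 2 * (2 * x ^ 2 - 1) ^ 2 * (1 + x ^ 2) ^ 2 := by ring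
          _ = _ := by rw [this]; ring
      have e2 : (4 * ((1 + 4 * x ^ 2) ^ 2 * √(1 + 4 * x ^ 2))) ^ 2 = 16 * (1 + 4 * x ^ 2) ^ 5 := by
        have : √(1 + 4 * x ^ 2) ^ 2 = 1 + 4 * x ^ 2 := Real.sq_sqrt hp.le
        calc _ = 16 * (1 + 4 * x ^ 2) ^ 4 * √(1 + 4 * x ^ 2) ^ 2 := by ring
          _ = _ := by rw [this]; ring
      rw [e1, e2]
      set X := x ^ 2 with hX
      have hX1 : X ≤ 1 := by nlinarith
      have hX2 : 1 / 2 ≤ X := by linarith
      have e3 : 16 * (1 + 4 * X) ^ 5 - 12500 * X * (2 * X - 1) ^ 2 * (1 + X) ^ 2 =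
          4 * ((1 - X) * (8404 * X ^ 4 + 15784 * X ^ 3 + 3849 * X ^ 2 - 3041 * X + 4)) := by ring
      have e4 : 0 ≤ 8404 * X ^ 4 + 15784 * X ^ 3 + 3849 * X ^ 2 - 3041 * X + 4 := by
        have : 0 ≤ X := by linarith
        have h8 : (1 / 2) * X ≤ X ^ 2 := by nlinarith
        have h9 : (1 / 2) * X ^ 2 ≤ X ^ 3 := by nlinarith [sq_nonneg X]
        have h10 : 0 ≤ X ^ 4 := by positivity
        nlinarith
      have e5 : 0 ≤ (1 - X) * (8404 * X ^ 4 + 15784 * X ^ 3 + 3849 * X ^ 2 - 3041 * X + 4) :=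
        mul_nonneg (by linarith) e4
      linarith
    nlinarith [key]

theorem deriv_gH_nonpos {x : ℝ} (h1 : 1 ≤ x) :
    50 * √5 * (x * (1 - 2 * x ^ 2)) / ((1 + 4 * x ^ 2) ^ 2 * √(1 + 4 * x ^ 2)) +
      4 / (1 + x ^ 2) ≤ 0 := by
  have hp : (0 : ℝ) < 1 + 4 * x ^ 2 := by positivity
  have hs : 0 < √(1 + 4 * x ^ 2) := Real.sqrt_pos.2 hp
  have hd : 0 < (1 + 4 * x ^ 2) ^ 2 * √(1 + 4 * x ^ 2) := by positivity
  have hq : (0 : ℝ) < 1 + x ^ 2 := by positivity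
  have hX1 : 1 ≤ x ^ 2 := by nlinarith
  rw [div_add_div _ _ hd.ne' hq.ne']
  refine div_nonpos_of_nonpos_of_nonneg ?_ (by positivity)
  have key : 4 * ((1 + 4 * x ^ 2) ^ 2 * √(1 + 4 * x ^ 2)) ≤
      50 * √5 * (x * (2 * x ^ 2 - 1)) * (1 + x ^ 2) := by
    have h3 : 0 ≤ 2 * x ^ 2 - 1 := by linarith
    refine abs_le_of_sq_le_sq' ?_ (by positivity) |>.2
    have e1 : (50 * √5 * (x * (2 * x ^ 2 - 1)) * (1 + x ^ 2)) ^ 2 =
        12500 * x ^ 2 * (2 * x ^ 2 - 1) ^ 2 * (1 + x ^ 2) ^ 2 := by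
      have : √5 ^ 2 = 5 := Real.sq_sqrt (by norm_num)
      calc _ = 2500 * √5 ^ 2 * x ^ 2 * (2 * x ^ 2 - 1) ^ 2 * (1 + x ^ 2) ^ 2 := by ring
        _ = _ := by rw [this]; ring
    have e2 : (4 * ((1 + 4 * x ^ 2) ^ 2 * √(1 + 4 * x ^ 2))) ^ 2 = 16 * (1 + 4 * x ^ 2) ^ 5 := by
      have : √(1 + 4 * x ^ 2) ^ 2 = 1 + 4 * x ^ 2 := Real.sq_sqrt hp.le
      calc _ = 16 * (1 + 4 * x ^ 2) ^ 4 * √(1 + 4 * x ^ 2) ^ 2 := by ring
        _ = _ := by rw [this]; ring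
    rw [e1, e2]
    set X := x ^ 2 with hX
    have e3 : 12500 * X * (2 * X - 1) ^ 2 * (1 + X) ^ 2 - 16 * (1 + 4 * X) ^ 5 =
        4 * ((X - 1) * (8404 * X ^ 4 + 15784 * X ^ 3 + 3849 * X ^ 2 - 3041 * X + 4)) := by ring
    have e4 : 0 ≤ 8404 * X ^ 4 + 15784 * X ^ 3 + 3849 * X ^ 2 - 3041 * X + 4 := by
      have : 0 ≤ X := by linarith
      have h8 : X ≤ X ^ 2 := by nlinarith
      have h9 : 0 ≤ X ^ 3 := by positivity
      have h10 : 0 ≤ X ^ 4 := by positivity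
      nlinarith
    have e5 : 0 ≤ (X - 1) * (8404 * X ^ 4 + 15784 * X ^ 3 + 3849 * X ^ 2 - 3041 * X + 4) :=
      mul_nonneg (by linarith) e4
    linarith
  nlinarith [key]

theorem gH_one : gH 1 = 5 + π := by
  unfold gH
  have h5 : √(1 + 4 * (1 : ℝ) ^ 2) = √5 := by norm_num
  rw [h5, Real.arctan_one]
  have h : √5 * √5 = 5 := Real.mul_self_sqrt (by norm_num)
  have hp : 0 < √5 := by positivity
  have : 25 * √5 * ((1 : ℝ) ^ 2 / ((1 + 4 * 1 ^ 2) * √5)) = 5 := by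
    field_simp
    norm_num
  rw [this]
  ring

/-- The main inequality in one variable. -/
theorem gH_le (x : ℝ) (hx : 0 ≤ x) : gH x ≤ 5 + π := by
  have hcont : Continuous gH := by
    refine continuous_iff_continuousAt.2 fun x => (hasDerivAt_gH x).continuousAt
  rw [← gH_one]
  rcases le_total x 1 with h | h
  · have hm : MonotoneOn gH (Set.Icc 0 1) := by
      refine monotoneOn_of_deriv_nonneg (convex_Icc 0 1) hcont.continuousOn
        (fun y _ => (hasDerivAt_gH y).differentiableAt.differentiableWithinAt) ?_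
      intro y hy
      rw [interior_Icc] at hy
      rw [(hasDerivAt_gH y).deriv]
      exact deriv_gH_nonneg hy.1.le hy.2.le
    exact hm ⟨hx, h⟩ ⟨zero_le_one, le_refl _⟩ h
  · have hm : AntitoneOn gH (Set.Ici 1) := by
      refine antitoneOn_of_deriv_nonpos (convex_Ici 1) hcont.continuousOn
        (fun y _ => (hasDerivAt_gH y).differentiableAt.differentiableWithinAt) ?_
      intro y hy
      rw [interior_Ici] at hy
      rw [(hasDerivAt_gH y).deriv]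
      exact deriv_gH_nonpos (le_of_lt hy)
    exact hm (Set.mem_Ici.2 le_rfl) (Set.mem_Ici.2 h) h

theorem arctan_add_le {a b : ℝ} (ha : 0 ≤ a) (hb : 0 ≤ b) :
    arctan a + arctan b ≤ 2 * arctan ((a + b) / 2) := by
  have hc : ConcaveOn ℝ (Set.Ici (0 : ℝ)) arctan := by
    refine AntitoneOn.concaveOn_of_deriv (convex_Ici 0) Real.continuous_arctan.continuousOn
      (Real.differentiable_arctan.differentiableOn) ?_
    rw [interior_Ici]
    intro x hx y hy hxy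
    rw [(Real.hasDerivAt_arctan x).deriv, (Real.hasDerivAt_arctan y).deriv]
    have hx' : 0 < x := hx
    have : x ^ 2 ≤ y ^ 2 := by nlinarith
    exact one_div_le_one_div_of_le (by positivity) (by linarith)
  have := hc.2 (Set.mem_Ici.2 ha) (Set.mem_Ici.2 hb) (by norm_num : (0 : ℝ) ≤ 1 / 2)
    (by norm_num : (0 : ℝ) ≤ 1 / 2) (by norm_num)
  simp only [smul_eq_mul] at this
  have e : 1 / 2 * a + 1 / 2 * b = (a + b) / 2 := by ring
  rw [e] at this
  linarith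

/-- The inequality for one tetrahedron in terms of the half lengths `s, t` of two opposite edges and
`D`, six times the volume divided by the product of the lengths of these edges. -/
theorem star_real (s t D r : ℝ) (hs : 0 < s) (ht : 0 < t) (hD : 0 < D) (hr : 0 < r)
    (h : D ^ 2 + (s + t) ^ 2 ≤ 4 * r ^ 2) :
    2 / 3 * s * t * D ≤ 16 / (75 * √5) * r ^ 3 *
      (5 + π - 2 * arctan (s / D) - 2 * arctan (t / D)) := by
  set q := (s + t) / 2 with hq
  have hq0 : 0 < q := by positivity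
  set x := q / D with hx
  have hx0 : 0 < x := by positivity
  have hst : s * t ≤ q ^ 2 := by
    rw [hq]; nlinarith [sq_nonneg (s - t)]
  have hqx : q = x * D := by rw [hx]; field_simp
  have h5 : 0 < √5 := by positivity
  have h55 : √5 * √5 = 5 := Real.mul_self_sqrt (by norm_num)
  have hp : (0 : ℝ) < 1 + 4 * x ^ 2 := by positivity
  set w := √(1 + 4 * x ^ 2) with hw
  have hw0 : 0 < w := Real.sqrt_pos.2 hp
  have hww : w ^ 2 = 1 + 4 * x ^ 2 := Real.sq_sqrt hp.le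
  have hDw : D * w ≤ 2 * r := by
    refine abs_le_of_sq_le_sq' ?_ (by positivity) |>.2
    have : (D * w) ^ 2 = D ^ 2 + (s + t) ^ 2 := by
      rw [mul_pow, hww]
      have : (s + t) = 2 * q := by rw [hq]; ring
      rw [this, hqx]; ring
    rw [this]; linarith [h]
  have hDw3 : (D * w) ^ 3 ≤ 8 * r ^ 3 := by
    have := pow_le_pow_left₀ (by positivity : (0:ℝ) ≤ D * w) hDw 3
    nlinarith [this]
  have hvol : 2 / 3 * s * t * D ≤ 2 / 3 * (x ^ 2 * D ^ 3) := by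
    have : s * t * D ≤ q ^ 2 * D := mul_le_mul_of_nonneg_right hst hD.le
    have e : q ^ 2 * D = x ^ 2 * D ^ 3 := by rw [hqx]; ring
    nlinarith
  have hg := gH_le x hx0.le
  unfold gH at hg
  rw [← hw] at hg
  have harc : 2 * arctan (s / D) + 2 * arctan (t / D) ≤ 4 * arctan x := by
    have := arctan_add_le (div_nonneg hs.le hD.le) (div_nonneg ht.le hD.le)
    have e : (s / D + t / D) / 2 = x := by rw [hx, hq]; ring
    rw [e] at this
    linarith
  have hX : 25 * √5 * (x ^ 2 / ((1 + 4 * x ^ 2) * w)) ≤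
      5 + π - 2 * arctan (s / D) - 2 * arctan (t / D) := by linarith
  refine hvol.trans ?_
  have hK : 0 < 16 / (75 * √5) * r ^ 3 := by positivity
  refine le_trans ?_ (mul_le_mul_of_nonneg_left hX hK.le)
  have e1 : 16 / (75 * √5) * r ^ 3 * (25 * √5 * (x ^ 2 / ((1 + 4 * x ^ 2) * w))) =
      16 / 3 * r ^ 3 * x ^ 2 / w ^ 3 := by
    have : (1 + 4 * x ^ 2) * w = w ^ 3 := by rw [← hww]; ring
    rw [this]
    field_simp
    norm_num
  rw [e1, le_div_iff₀ (by positivity)]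
  have : 2 / 3 * (x ^ 2 * D ^ 3) * w ^ 3 = 2 / 3 * x ^ 2 * (D * w) ^ 3 := by ring
  rw [this]
  have hx2 : 0 ≤ x ^ 2 := by positivity
  nlinarith [mul_le_mul_of_nonneg_left hDw3 hx2]

end H36KT
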