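import Pool.Agent.H36.KT.Defs

set_option autoImplicit false

/-!
# The limit argument

Proof. If `N R = ⊤` for some `R`, then `N = ⊤` from `R` on and the liminf is `⊤` (volumes of balls
are positive and finite). Otherwise `N R` is a natural number for all `R`; put
`g R = N R * r ^ 3 / R ^ 3` (this is the function of the liminf, for `R > 0`) and
`c = 5 √5 π / 24 = (4 π / 3) / (30 * (16 / (75 √5)))`, `lam = 6 π / (30 + 6 π) < 1`.
The hypothesis says `g (R + 2 r) ≥ ((1 - lam) c + lam g R) * (R / (R + 2 r)) ^ 3`, and the last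
factor tends to `1`. Let `S` be the set of real `b` with `b ≤ g R` for all large `R`. Then `0 ∈ S`,
and `b ∈ S`, `0 ≤ b`, `b' < (1 - lam) c + lam b` imply `b' ∈ S`. For `0 < c' < c` one gets
`c' (1 - lam ^ n) ∈ S` for all `n` by induction, since
`(1 - lam) c + lam c' (1 - lam ^ n) > c' (1 - lam ^ (n + 1))`. Hence every `b < c` lies in `S`.
-/

namespace H36KT

open MeasureTheory

/-- the real limit argument -/
lemma rec_real (g : ℝ → ℝ) (r c lam : ℝ) (hr : 0 < r) (hc : 0 < c) (hl0 : 0 < lam) (hl1 : lam < 1)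
    (hg : ∀ R, 0 < R → 0 ≤ g R)
    (h : ∀ R, 0 < R → ((1 - lam) * c + lam * g R) * (R / (R + 2 * r)) ^ 3 ≤ g (R + 2 * r))
    (b : ℝ) (hb : b < c) : ∀ᶠ R in Filter.atTop, b ≤ g R := by
  have hfac : Filter.Tendsto (fun R : ℝ => (R / (R + 2 * r)) ^ 3) Filter.atTop (nhds 1) := by
    have h1 : Filter.Tendsto (fun R : ℝ => 1 - 2 * r / (R + 2 * r)) Filter.atTop (nhds (1 - 0)) := by
      apply Filter.Tendsto.sub tendsto_const_nhds
      apply Filter.Tendsto.div_atTop tendsto_const_nhds
      exact Filter.tendsto_atTop_add_const_right _ _ Filter.tendsto_id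
    have h2 : Filter.Tendsto (fun R : ℝ => (1 - 2 * r / (R + 2 * r)) ^ 3) Filter.atTop
        (nhds ((1 - 0) ^ 3)) := h1.pow 3
    have h3 : ((1 : ℝ) - 0) ^ 3 = 1 := by norm_num
    rw [h3] at h2
    refine h2.congr' ?_
    filter_upwards [Filter.eventually_gt_atTop 0] with R hR
    congr 1
    field_simp
    ring
  have step : ∀ b b' : ℝ, 0 ≤ b → b' < (1 - lam) * c + lam * b →
      (∀ᶠ R in Filter.atTop, b ≤ g R) → ∀ᶠ R in Filter.atTop, b' ≤ g R := by
    intro b b' hb0 hb' hS
    have h1 : Filter.Tendsto (fun R : ℝ => ((1 - lam) * c + lam * b) * (R / (R + 2 * r)) ^ 3)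
        Filter.atTop (nhds (((1 - lam) * c + lam * b) * 1)) := hfac.const_mul _
    rw [mul_one] at h1
    have h2 := h1.eventually (lt_mem_nhds hb')
    have h3 : ∀ᶠ R in Filter.atTop, b' ≤ g (R + 2 * r) := by
      filter_upwards [h2, hS, Filter.eventually_gt_atTop 0] with R h4 h5 hR
      refine le_trans h4.le (le_trans ?_ (h R hR))
      have : 0 ≤ (R / (R + 2 * r)) ^ 3 := by positivity
      apply mul_le_mul_of_nonneg_right _ this
      nlinarith
    have h6 : Filter.Tendsto (fun R : ℝ => R - 2 * r) Filter.atTop Filter.atTop :=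
      Filter.tendsto_atTop_add_const_right _ (-(2 * r)) Filter.tendsto_id
    filter_upwards [h6.eventually h3] with R h7
    simpa using h7
  have main : ∀ c' : ℝ, 0 < c' → c' < c → ∀ n : ℕ, ∀ᶠ R in Filter.atTop, c' * (1 - lam ^ n) ≤ g R := by
    intro c' hc' hcc n
    induction n with
    | zero =>
      filter_upwards [Filter.eventually_gt_atTop 0] with R hR
      simpa using hg R hR
    | succ n ih =>
      have hpow : lam ^ n ≤ 1 := pow_le_one₀ hl0.le hl1.le
      refine step (c' * (1 - lam ^ n)) _ (mul_nonneg hc'.le (by linarith)) ?_ ih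
      have e : (1 - lam) * c + lam * (c' * (1 - lam ^ n)) - c' * (1 - lam ^ (n + 1)) =
          (1 - lam) * (c - c') := by ring
      have : 0 < (1 - lam) * (c - c') := mul_pos (by linarith) (by linarith)
      linarith
  obtain ⟨c', hc1, hc2⟩ := exists_between (max_lt hb hc)
  have hbc : b < c' := (le_max_left _ _).trans_lt hc1
  have hc0 : 0 < c' := (le_max_right _ _).trans_lt hc1
  obtain ⟨n, hn⟩ := exists_pow_lt_of_lt_one (show 0 < (c' - b) / c' from
    div_pos (by linarith) hc0) hl1
  filter_upwards [main c' hc0 hc2 n] with R hR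
  refine le_trans ?_ hR
  have : c' * lam ^ n ≤ c' - b := by
    calc c' * lam ^ n ≤ c' * ((c' - b) / c') := by gcongr
      _ = c' - b := by field_simp
  linarith

theorem liminf_of_rec (N : ℝ → ℕ∞) (r : ℝ) (hr : 0 < r) (hmono : Monotone N)
    (h : ∀ R : ℝ, 0 < R → ∀ a b : ℕ, N R = a → N (R + 2 * r) = b →
      4 / 3 * Real.pi * R ^ 3 ≤
        16 / (75 * Real.sqrt 5) * r ^ 3 * ((30 + 6 * Real.pi) * b - 6 * Real.pi * a)) :
    ENNReal.ofReal (5 * Real.sqrt 5 * Real.pi / 24) ≤
      Filter.liminf (fun R : ℝ => ((N R : ℕ∞) : ENNReal) * volume (Metric.closedBall (0 : E3) r) /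
        volume (Metric.closedBall (0 : E3) R)) Filter.atTop := by
  have hpi := Real.pi_pos
  have h5 : 0 < Real.sqrt 5 := Real.sqrt_pos.2 (by norm_num)
  have hvol : ∀ R : ℝ, 0 ≤ R → volume (Metric.closedBall (0 : E3) R) =
      ENNReal.ofReal (R ^ 3 * (Real.pi * 4 / 3)) := by
    intro R hR
    rw [EuclideanSpace.volume_closedBall_fin_three, ← ENNReal.ofReal_pow hR,
      ← ENNReal.ofReal_mul (by positivity)]
  have hVr : volume (Metric.closedBall (0 : E3) r) ≠ 0 := by
    rw [hvol r hr.le]
    exact (ENNReal.ofReal_pos.2 (by positivity)).ne'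
  by_cases hfin : ∃ R₀, N R₀ = ⊤
  · obtain ⟨R₀, hR₀⟩ := hfin
    apply Filter.le_liminf_of_le
    · isBoundedDefault
    · filter_upwards [Filter.eventually_ge_atTop R₀] with R hR
      have hN : N R = ⊤ := top_le_iff.1 (hR₀ ▸ hmono hR)
      rw [hN, ENat.toENNReal_top, ENNReal.top_mul hVr, ENNReal.top_div_of_ne_top]
      · exact le_top
      · exact measure_closedBall_lt_top.ne
  · push Not at hfin
    choose n hn using fun R => ENat.ne_top_iff_exists.1 (hfin R)
    set c : ℝ := 5 * Real.sqrt 5 * Real.pi / 24 with hc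
    set lam : ℝ := 6 * Real.pi / (30 + 6 * Real.pi) with hlam
    set g : ℝ → ℝ := fun R => (n R : ℝ) * r ^ 3 / R ^ 3 with hg
    have hreal : ∀ b : ℝ, b < c → ∀ᶠ R in Filter.atTop, b ≤ g R := by
      refine rec_real g r c lam hr (by positivity) (by positivity) ?_ ?_ ?_
      · rw [hlam, div_lt_one (by positivity)]
        linarith
      · intro R hR
        rw [hg]
        positivity
      · intro R hR
        have h1 := h R hR (n R) (n (R + 2 * r)) (hn R).symm (hn (R + 2 * r)).symm
        have hs5 : Real.sqrt 5 * Real.sqrt 5 = 5 := Real.mul_self_sqrt (by norm_num)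
        have h2 : 25 * Real.sqrt 5 * Real.pi * R ^ 3 / 4 ≤
            r ^ 3 * ((30 + 6 * Real.pi) * n (R + 2 * r) - 6 * Real.pi * n R) := by
          have h3 : 25 * Real.sqrt 5 * Real.pi * R ^ 3 / 4 =
              (75 * Real.sqrt 5 / 16) * (4 / 3 * Real.pi * R ^ 3) := by ring
          rw [h3]
          calc (75 * Real.sqrt 5 / 16) * (4 / 3 * Real.pi * R ^ 3)
              ≤ (75 * Real.sqrt 5 / 16) * (16 / (75 * Real.sqrt 5) * r ^ 3 *
                ((30 + 6 * Real.pi) * n (R + 2 * r) - 6 * Real.pi * n R)) := by gcongr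
            _ = _ := by field_simp
        have hR2 : 0 < R + 2 * r := by linarith
        have e1 : (1 - lam) * c + lam * g R =
            (25 * Real.sqrt 5 * Real.pi / 4 + 6 * Real.pi * ((n R : ℝ) * r ^ 3 / R ^ 3)) /
              (30 + 6 * Real.pi) := by
          rw [hlam, hc, hg]
          field_simp
          ring
        rw [e1, hg]
        simp only
        rw [div_pow, div_mul_div_comm, div_le_div_iff₀ (by positivity) (by positivity)]
        have e2 : (25 * Real.sqrt 5 * Real.pi / 4 + 6 * Real.pi * ((n R : ℝ) * r ^ 3 / R ^ 3)) *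
            R ^ 3 = 25 * Real.sqrt 5 * Real.pi * R ^ 3 / 4 + 6 * Real.pi * ((n R : ℝ) * r ^ 3) := by
          field_simp
        rw [e2]
        have h4 : 25 * Real.sqrt 5 * Real.pi * R ^ 3 / 4 + 6 * Real.pi * ((n R : ℝ) * r ^ 3) ≤
            (n (R + 2 * r) : ℝ) * r ^ 3 * (30 + 6 * Real.pi) := by nlinarith
        calc (25 * Real.sqrt 5 * Real.pi * R ^ 3 / 4 + 6 * Real.pi * ((n R : ℝ) * r ^ 3)) *
              (R + 2 * r) ^ 3
            ≤ ((n (R + 2 * r) : ℝ) * r ^ 3 * (30 + 6 * Real.pi)) * (R + 2 * r) ^ 3 := by gcongr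
          _ = _ := by ring
    have hf : ∀ R : ℝ, 0 < R → ((N R : ℕ∞) : ENNReal) * volume (Metric.closedBall (0 : E3) r) /
        volume (Metric.closedBall (0 : E3) R) = ENNReal.ofReal (g R) := by
      intro R hR
      rw [← hn R, hvol r hr.le, hvol R hR.le, ENat.toENNReal_coe, ← ENNReal.ofReal_natCast,
        ← ENNReal.ofReal_mul (by positivity), ← ENNReal.ofReal_div_of_pos (by positivity)]
      congr 1
      rw [hg]
      field_simp
    refine le_of_forall_lt fun b hb => ?_
    obtain ⟨b', hb1, hb2⟩ := exists_between hb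
    refine lt_of_lt_of_le hb1 ?_
    have hb'top : b' ≠ ⊤ := (hb2.trans ENNReal.ofReal_lt_top).ne
    have hbc : b'.toReal < c := by
      rw [← ENNReal.ofReal_lt_ofReal_iff (by positivity), ENNReal.ofReal_toReal hb'top]
      exact hb2
    apply Filter.le_liminf_of_le
    · isBoundedDefault
    · filter_upwards [hreal _ hbc, Filter.eventually_gt_atTop 0] with R h1 hR
      rw [hf R hR, ← ENNReal.ofReal_toReal hb'top]
      exact ENNReal.ofReal_le_ofReal h1

end H36KT
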