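import Pool.Agent.H36.KT.Sum

set_option autoImplicit false

/-!
# The main inequality between the volume of a ball and the numbers of centres
-/

namespace H36KT

open Real MeasureTheory Equiv

variable {p : (Fin 3 → ℤ) → E3}

theorem kv_pred (z : Fin 3 → ℤ) (σ : Perm (Fin 3)) :
    kuhnVertex (z - Pi.single (σ 0) 1) σ 1 = z := by
  funext j
  simp only [kuhnVertex, Pi.sub_apply]
  have : (if (σ.symm j : ℕ) < ((1 : Fin 4) : ℕ) then (1 : ℤ) else 0) -
      (Pi.single (σ 0) 1 : Fin 3 → ℤ) j = 0 := by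
    revert j σ
    decide
  rw [shift_aux _ _ _ _ this, add_zero]

theorem sum_angles (hp : IsKuhnDelaunay p) (z : Fin 3 → ℤ) :
    6 * π ≤ ∑ σ : Perm (Fin 3), al p z σ +
      ∑ σ : Perm (Fin 3), be p (z - Pi.single (σ 0) 1) σ := by
  have h := Finset.sum_le_sum (s := Finset.univ)
    fun (σ : Perm (Fin 3)) _ => four_cells hp z σ
  rw [Finset.sum_const, Finset.card_univ, Fintype.card_perm, Fintype.card_fin] at h
  simp only [Finset.sum_add_distrib] at h
  have h1 : ∑ σ : Perm (Fin 3), al p z (σ * swap 0 1) = ∑ σ, al p z σ :=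
    Equiv.sum_comp (Equiv.mulRight (swap 0 1)) (fun σ => al p z σ)
  have h2 : ∑ σ : Perm (Fin 3), be p (z - Pi.single (σ 2) 1) (σ * swap 0 2) =
      ∑ σ : Perm (Fin 3), be p (z - Pi.single (σ 0) 1) σ := by
    refine (Finset.sum_congr rfl fun σ _ => ?_).trans (Equiv.sum_comp (Equiv.mulRight (swap 0 2))
      (fun σ : Perm (Fin 3) => be p (z - Pi.single (σ 0) 1) σ))
    have : (Equiv.mulRight (swap 0 2) σ) 0 = σ 2 := by
      simp [Equiv.coe_mulRight, Perm.mul_apply]
    rw [this]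
    rfl
  have h3 : ∑ σ : Perm (Fin 3), be p (z - Pi.single (σ 2) 1) (σ * cyc) =
      ∑ σ : Perm (Fin 3), be p (z - Pi.single (σ 0) 1) σ := by
    refine (Finset.sum_congr rfl fun σ _ => ?_).trans (Equiv.sum_comp (Equiv.mulRight cyc)
      (fun σ : Perm (Fin 3) => be p (z - Pi.single (σ 0) 1) σ))
    have hc : cyc 0 = 2 := by decide
    have : (Equiv.mulRight cyc σ) 0 = σ 2 := by
      rw [Equiv.coe_mulRight, Perm.mul_apply, hc]
    rw [this]
    rfl
  rw [h1, h2, h3] at h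
  have h4 : (Nat.factorial 3 : ℕ) = 6 := rfl
  rw [h4, nsmul_eq_mul] at h
  push_cast at h
  linarith

theorem radius_le {r : ℝ} (hp : IsKuhnDelaunay p) (hcov : IsBallCovering p r) (z : Fin 3 → ℤ)
    (σ : Perm (Fin 3)) :
    ∃ (o : E3) (ρ : ℝ), ρ ≤ r ∧ ∀ i, dist (p (kuhnVertex z σ i)) o = ρ := by
  obtain ⟨o, ρ, h1, h2⟩ := hp.empty_sphere z σ
  have : o ∈ ⋃ i, Metric.closedBall (p i) r := by rw [hcov.2]; trivial
  obtain ⟨w, hw⟩ := Set.mem_iUnion.1 this
  rw [Metric.mem_closedBall] at hw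
  have h3 := h2 w
  rw [dist_comm] at h3
  exact ⟨o, ρ, by linarith, h1⟩

theorem dist_cell_le {r : ℝ} (hp : IsKuhnDelaunay p) (hcov : IsBallCovering p r)
    (z : Fin 3 → ℤ) (σ : Perm (Fin 3)) (i : Fin 4) {x : E3} (hx : x ∈ cell p z σ) :
    dist x (p (kuhnVertex z σ i)) ≤ 2 * r := by
  obtain ⟨o, ρ, h1, h2⟩ := radius_le hp hcov z σ
  have h3 : cell p z σ ⊆ Metric.closedBall o ρ := by
    refine convexHull_min ?_ (convex_closedBall o ρ)
    rintro _ ⟨j, rfl⟩
    exact Metric.mem_closedBall.2 (h2 j).le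
  have h4 := Metric.mem_closedBall.1 (h3 hx)
  have h5 := dist_triangle_right x (p (kuhnVertex z σ i)) o
  rw [h2 i] at h5
  linarith

/-- the constant -/
noncomputable def KK (r : ℝ) : ℝ := 16 / (75 * √5) * r ^ 3

theorem volume_cell_le {r : ℝ} (hp : IsKuhnDelaunay p) (hcov : IsBallCovering p r)
    (z : Fin 3 → ℤ) (σ : Perm (Fin 3)) :
    0 ≤ KK r * (5 + π - al p z σ - be p z σ) ∧
    volume (cell p z σ) ≤ ENNReal.ofReal (KK r * (5 + π - al p z σ - be p z σ)) := by
  obtain ⟨o, ρ, h1, h2⟩ := radius_le hp hcov z σ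
  have h3 := star (p (kuhnVertex z σ 0)) (p (kuhnVertex z σ 2)) (p (kuhnVertex z σ 1))
    (p (kuhnVertex z σ 3)) o ρ r hcov.1 h1 (h2 _) (h2 _) (h2 _) (h2 _) (det_ne hp z σ)
  refine ⟨le_trans (by positivity) h3, ?_⟩
  rw [cell, range_fin4]
  exact (volume_tetra_le _ _ _ _).trans (ENNReal.ofReal_le_ofReal h3)

theorem main_ineq {r : ℝ} (hp : IsKuhnDelaunay p) (hcov : IsBallCovering p r) (R : ℝ)
    (hR : 0 < R) (a b : ℕ) (ha : ({w | ‖p w‖ ≤ R} : Set (Fin 3 → ℤ)).encard = a)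
    (hb : ({w | ‖p w‖ ≤ R + 2 * r} : Set (Fin 3 → ℤ)).encard = b) :
    4 / 3 * π * R ^ 3 ≤ 16 / (75 * √5) * r ^ 3 * ((30 + 6 * π) * b - 6 * π * a) := by
  classical
  have hr : 0 < r := hcov.1
  have hfa := Set.finite_of_encard_eq_coe ha
  have hfb := Set.finite_of_encard_eq_coe hb
  set W0 := hfa.toFinset with hW0
  set W := hfb.toFinset with hW
  have hca : W0.card = a := by
    rw [hfa.encard_eq_coe_toFinset_card] at ha
    exact_mod_cast ha
  have hcb : W.card = b := by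
    rw [hfb.encard_eq_coe_toFinset_card] at hb
    exact_mod_cast hb
  have mW0 : ∀ w, w ∈ W0 ↔ ‖p w‖ ≤ R := by
    intro w; rw [hW0, Set.Finite.mem_toFinset]; rfl
  have mW : ∀ w, w ∈ W ↔ ‖p w‖ ≤ R + 2 * r := by
    intro w; rw [hW, Set.Finite.mem_toFinset]; rfl
  -- covering of the ball
  have hsub : Metric.closedBall (0 : E3) R ⊆
      ⋃ z ∈ W, ⋃ σ ∈ (Finset.univ : Finset (Perm (Fin 3))), cell p z σ := by
    intro x hx
    have hx' : x ∈ ⋃ z, ⋃ σ, cell p z σ := by rw [hp.cover]; trivial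
    simp only [Set.mem_iUnion] at hx'
    obtain ⟨z, σ, h1⟩ := hx'
    have h2 := dist_cell_le hp hcov z σ 0 h1
    rw [kv_zero] at h2
    have h3 : ‖p z‖ ≤ R + 2 * r := by
      have h4 : ‖x‖ ≤ R := by simpa using hx
      have h5 : ‖p z‖ ≤ ‖x‖ + dist x (p z) := by
        rw [dist_eq_norm, ← norm_neg (x - p z), neg_sub]
        have := norm_add_le x (p z - x)
        rwa [add_sub_cancel] at this
      linarith
    simp only [Set.mem_iUnion]
    exact ⟨z, (mW z).2 h3, σ, Finset.mem_univ _, h1⟩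
  have hvol : ENNReal.ofReal (4 / 3 * π * R ^ 3) ≤
      ENNReal.ofReal (∑ z ∈ W, ∑ σ : Perm (Fin 3), KK r * (5 + π - al p z σ - be p z σ)) := by
    calc ENNReal.ofReal (4 / 3 * π * R ^ 3) = volume (Metric.closedBall (0 : E3) R) := by
          rw [EuclideanSpace.volume_closedBall_fin_three, ← ENNReal.ofReal_pow hR.le,
            ← ENNReal.ofReal_mul (by positivity)]
          congr 1
          ring
      _ ≤ _ := measure_mono hsub
      _ ≤ ∑ z ∈ W, volume (⋃ σ ∈ (Finset.univ : Finset (Perm (Fin 3))), cell p z σ) :=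
          measure_biUnion_finset_le _ _
      _ ≤ ∑ z ∈ W, ∑ σ : Perm (Fin 3), volume (cell p z σ) :=
          Finset.sum_le_sum fun z _ => measure_biUnion_finset_le _ _
      _ ≤ ∑ z ∈ W, ∑ σ : Perm (Fin 3),
          ENNReal.ofReal (KK r * (5 + π - al p z σ - be p z σ)) :=
          Finset.sum_le_sum fun z _ => Finset.sum_le_sum fun σ _ => (volume_cell_le hp hcov z σ).2
      _ = _ := by
          rw [ENNReal.ofReal_sum_of_nonneg fun z _ =>
            Finset.sum_nonneg fun σ _ => (volume_cell_le hp hcov z σ).1]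
          refine Finset.sum_congr rfl fun z _ => ?_
          rw [ENNReal.ofReal_sum_of_nonneg fun σ _ => (volume_cell_le hp hcov z σ).1]
  have hvol2 : 4 / 3 * π * R ^ 3 ≤
      ∑ z ∈ W, ∑ σ : Perm (Fin 3), KK r * (5 + π - al p z σ - be p z σ) := by
    refine (ENNReal.ofReal_le_ofReal_iff ?_).1 hvol
    exact Finset.sum_nonneg fun z _ =>
      Finset.sum_nonneg fun σ _ => (volume_cell_le hp hcov z σ).1
  -- the angles
  have hsub0 : W0 ⊆ W := by
    intro w hw
    rw [mW]; rw [mW0] at hw; linarith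
  have hal : ∑ z ∈ W0, ∑ σ : Perm (Fin 3), al p z σ ≤ ∑ z ∈ W, ∑ σ : Perm (Fin 3), al p z σ :=
    Finset.sum_le_sum_of_subset_of_nonneg hsub0 fun z _ _ =>
      Finset.sum_nonneg fun σ _ => al_nonneg p z σ
  have hbe : ∑ z ∈ W0, ∑ σ : Perm (Fin 3), be p (z - Pi.single (σ 0) 1) σ ≤
      ∑ z ∈ W, ∑ σ : Perm (Fin 3), be p z σ := by
    rw [Finset.sum_comm, Finset.sum_comm (s := W)]
    refine Finset.sum_le_sum fun σ _ => ?_
    have hinj : Set.InjOn (fun z : Fin 3 → ℤ => z - Pi.single (σ 0) 1) (W0 : Set (Fin 3 → ℤ)) :=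
      fun x _ y _ h => sub_left_injective h
    rw [← Finset.sum_image (f := fun z => be p z σ) hinj]
    refine Finset.sum_le_sum_of_subset_of_nonneg ?_ fun z _ _ => be_nonneg p z σ
    intro w hw
    obtain ⟨z, hz, rfl⟩ := Finset.mem_image.1 hw
    rw [mW0] at hz
    rw [mW]
    -- `z - e` and `z` are the vertices 0 and 1 of one simplex
    have k1 := kv_pred z σ
    have hmem : p z ∈ cell p (z - Pi.single (σ 0) 1) σ := by
      have : p (kuhnVertex (z - Pi.single (σ 0) 1) σ 1) ∈ cell p (z - Pi.single (σ 0) 1) σ :=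
        subset_convexHull ℝ _ ⟨1, rfl⟩
      rwa [k1] at this
    have h2 := dist_cell_le hp hcov _ σ 0 hmem
    rw [kv_zero] at h2
    set y := p (z - Pi.single (σ 0) 1) with hy
    have h5 : ‖y‖ ≤ ‖p z‖ + dist (p z) y := by
      rw [dist_eq_norm, ← norm_neg (p z - y), neg_sub]
      have := norm_add_le (p z) (y - p z)
      rwa [add_sub_cancel] at this
    linarith
  have hang : 6 * π * a ≤ ∑ z ∈ W, ∑ σ : Perm (Fin 3), al p z σ +
      ∑ z ∈ W, ∑ σ : Perm (Fin 3), be p z σ := by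
    refine le_trans ?_ (add_le_add hal hbe)
    rw [← Finset.sum_add_distrib]
    have := Finset.sum_le_sum (s := W0) fun z _ => sum_angles hp z
    rw [Finset.sum_const, hca, nsmul_eq_mul] at this
    linarith
  have hsum : ∑ z ∈ W, ∑ σ : Perm (Fin 3), KK r * (5 + π - al p z σ - be p z σ) =
      KK r * (b * (6 * (5 + π)) - (∑ z ∈ W, ∑ σ : Perm (Fin 3), al p z σ +
        ∑ z ∈ W, ∑ σ : Perm (Fin 3), be p z σ)) := by
    simp only [← Finset.mul_sum, Finset.sum_sub_distrib, Finset.sum_const, Finset.card_univ,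
      Fintype.card_perm, Fintype.card_fin, hcb, nsmul_eq_mul]
    have h4 : (Nat.factorial 3 : ℕ) = 6 := rfl
    rw [h4]
    push_cast
    ring
  rw [hsum] at hvol2
  refine hvol2.trans ?_
  unfold KK
  refine mul_le_mul_of_nonneg_left ?_ (by positivity)
  linarith

end H36KT
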