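import Pool.Agent.H36.KT.Defs
import Pool.Agent.H47.Trop.Vol

set_option autoImplicit false

/-!
# Volume of a tetrahedron (upper bound)

Proof: with `x : Fin 3 → ℝ`, `0 ≤ x i`, `∑ x i ≤ 1` (volume `1/6` by
`Pool.Agent.H47.Trop.vol_corner 3`), the tetrahedron is the image under
`x ↦ A + x 0 • (B - A) + x 1 • (C - A) + x 2 • (D - A)`; compare `H47.Trop.volume_simplex`.
-/

namespace H36KT

open MeasureTheory

theorem volume_tetra_le (A B C D : E3) :
    volume (convexHull ℝ ({A, B, C, D} : Set E3)) ≤
      ENNReal.ofReal (|det3 (B - A) (C - A) (D - A)| / 6) := by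
  let S : Set (Fin 3 → ℝ) := {x | (∀ i, 0 ≤ x i) ∧ ∑ i, x i ≤ 1}
  let M : Matrix (Fin 3) (Fin 3) ℝ :=
    Matrix.of ![fun j => (B - A) j, fun j => (C - A) j, fun j => (D - A) j]
  let L : (Fin 3 → ℝ) →ₗ[ℝ] (Fin 3 → ℝ) := Matrix.toLin' M.transpose
  have hL : ∀ x j, L x j = x 0 * (B - A) j + x 1 * (C - A) j + x 2 * (D - A) j := by
    intro x j
    simp only [L, Matrix.toLin'_apply, Matrix.mulVec, dotProduct, Matrix.transpose_apply,
      Fin.sum_univ_three, M, Matrix.of_apply, Matrix.cons_val_zero, Matrix.cons_val_one,
      Matrix.cons_val]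
    ring
  let a : Fin 3 → ℝ := fun j => A j
  have hS : Convex ℝ S := by
    intro x hx y hy s t hs ht hst
    refine ⟨fun i => ?_, ?_⟩
    · have := hx.1 i
      have := hy.1 i
      simp only [Pi.add_apply, Pi.smul_apply, smul_eq_mul]
      positivity
    · simp only [Pi.add_apply, Pi.smul_apply, smul_eq_mul]
      rw [Finset.sum_add_distrib, ← Finset.mul_sum, ← Finset.mul_sum]
      nlinarith [hx.2, hy.2]
  let e := (MeasurableEquiv.toLp 2 (Fin 3 → ℝ)).symm
  have he : MeasurePreserving e volume volume :=
    EuclideanSpace.volume_preserving_symm_measurableEquiv_toLp (Fin 3)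
  have hsub : convexHull ℝ ({A, B, C, D} : Set E3) ⊆ e ⁻¹' ((fun y => y + a) '' (L '' S)) := by
    apply convexHull_min
    · have key : ∀ (x : Fin 3 → ℝ) (P : E3), x ∈ S → (∀ j, P j = L x j + A j) →
          P ∈ e ⁻¹' ((fun y => y + a) '' (L '' S)) := by
        intro x P hx hP
        refine ⟨L x, ⟨x, hx, rfl⟩, ?_⟩
        funext j
        exact (hP j).symm
      intro P hP
      simp only [Set.mem_insert_iff, Set.mem_singleton_iff] at hP
      rcases hP with rfl | rfl | rfl | rfl
      · apply key 0
        · simp [S]
        · intro j; simp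
      · apply key (Pi.single 0 1)
        · refine ⟨fun i => ?_, ?_⟩
          · by_cases h : i = 0
            · subst h; simp
            · rw [Pi.single_eq_of_ne h]
          · simp
        · intro j
          rw [hL]
          simp
      · apply key (Pi.single 1 1)
        · refine ⟨fun i => ?_, ?_⟩
          · by_cases h : i = 1
            · subst h; simp
            · rw [Pi.single_eq_of_ne h]
          · simp
        · intro j
          rw [hL]
          simp
      · apply key (Pi.single 2 1)
        · refine ⟨fun i => ?_, ?_⟩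
          · by_cases h : i = 2
            · subst h; simp
            · rw [Pi.single_eq_of_ne h]
          · simp
        · intro j
          rw [hL]
          simp
    · intro P hP Q hQ s t hs ht hst
      obtain ⟨_, ⟨x, hx, rfl⟩, hx'⟩ := hP
      obtain ⟨_, ⟨y, hy, rfl⟩, hy'⟩ := hQ
      refine ⟨L (s • x + t • y), ⟨s • x + t • y, hS hx hy hs ht hst, rfl⟩, ?_⟩
      funext j
      have h1 : L x j + A j = P j := congrFun hx' j
      have h2 : L y j + A j = Q j := congrFun hy' j
      show L (s • x + t • y) j + A j = (s • P + t • Q) j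
      rw [map_add, map_smul, map_smul]
      simp only [Pi.add_apply, Pi.smul_apply, smul_eq_mul, PiLp.add_apply, PiLp.smul_apply]
      rw [← h1, ← h2]
      have : A j = (s + t) * A j := by rw [hst, one_mul]
      linear_combination this
  calc volume (convexHull ℝ ({A, B, C, D} : Set E3))
      ≤ volume (e ⁻¹' ((fun y => y + a) '' (L '' S))) := measure_mono hsub
    _ = volume ((fun y => y + a) '' (L '' S)) := he.measure_preimage_equiv _
    _ = ENNReal.ofReal (|det3 (B - A) (C - A) (D - A)| / 6) := by
        rw [Set.image_add_right, measure_preimage_add_right, Measure.addHaar_image_linearMap]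
        have h1 : volume S = ENNReal.ofReal (1 ^ 3 / (Nat.factorial 3 : ℕ)) :=
          Pool.Agent.H47.Trop.vol_corner 3 zero_le_one
        rw [h1, ← ENNReal.ofReal_mul (abs_nonneg _)]
        congr 1
        have h2 : LinearMap.det L = det3 (B - A) (C - A) (D - A) := by
          rw [LinearMap.det_toLin', Matrix.det_transpose, Matrix.det_fin_three]
          simp only [M, Matrix.of_apply, Matrix.cons_val_zero, Matrix.cons_val_one,
            Matrix.cons_val, det3]
          ring
        rw [h2]
        norm_num [Nat.factorial]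
        ring

end H36KT
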