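import Pool.Agent.H36.KT.Cov
import Pool.Agent.H36.KT.Angle
import Pool.Agent.H36.KT.Facet
import Pool.Agent.H36.KT.Vol

set_option autoImplicit false

/-!
# Summation over the triangulation
-/

namespace H36KT

open Real MeasureTheory Equiv

/-- the cycle `0 ↦ 2, 1 ↦ 0, 2 ↦ 1` -/
def cyc : Perm (Fin 3) := swap 0 1 * swap 0 2

theorem kv_zero (z : Fin 3 → ℤ) (σ : Perm (Fin 3)) : kuhnVertex z σ 0 = z := by
  funext j
  simp [kuhnVertex]

theorem kv_s2 (z : Fin 3 → ℤ) (σ : Perm (Fin 3)) :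
    kuhnVertex z (σ * swap 0 1) 2 = kuhnVertex z σ 2 := by
  funext j
  simp only [kuhnVertex]
  congr 1
  revert j σ
  decide

theorem kv_s3 (z : Fin 3 → ℤ) (σ : Perm (Fin 3)) :
    kuhnVertex z (σ * swap 0 1) 3 = kuhnVertex z σ 3 := by
  funext j
  simp only [kuhnVertex]
  congr 1
  revert j σ
  decide

theorem shift_aux (a b c d : ℤ) (h : b - c = d) : a - c + b = a + d := by
  rw [← h]; ring

theorem kv_c1 (z : Fin 3 → ℤ) (σ : Perm (Fin 3)) :
    kuhnVertex (z - Pi.single (σ 2) 1) (σ * cyc) 1 = z := by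
  funext j
  simp only [kuhnVertex, Pi.sub_apply]
  have : (if ((σ * cyc).symm j : ℕ) < ((1 : Fin 4) : ℕ) then (1 : ℤ) else 0) -
      (Pi.single (σ 2) 1 : Fin 3 → ℤ) j = 0 := by
    revert j σ
    decide
  rw [shift_aux _ _ _ _ this, add_zero]

theorem kv_c2 (z : Fin 3 → ℤ) (σ : Perm (Fin 3)) :
    kuhnVertex (z - Pi.single (σ 2) 1) (σ * cyc) 2 = kuhnVertex z σ 1 := by
  funext j
  simp only [kuhnVertex, Pi.sub_apply]
  refine shift_aux _ _ _ _ ?_
  revert j σ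
  decide

theorem kv_c3 (z : Fin 3 → ℤ) (σ : Perm (Fin 3)) :
    kuhnVertex (z - Pi.single (σ 2) 1) (σ * cyc) 3 = kuhnVertex z σ 2 := by
  funext j
  simp only [kuhnVertex, Pi.sub_apply]
  refine shift_aux _ _ _ _ ?_
  revert j σ
  decide

theorem kv_d1 (z : Fin 3 → ℤ) (σ : Perm (Fin 3)) :
    kuhnVertex (z - Pi.single (σ 2) 1) (σ * swap 0 2) 1 = z := by
  funext j
  simp only [kuhnVertex, Pi.sub_apply]
  have : (if ((σ * swap 0 2).symm j : ℕ) < ((1 : Fin 4) : ℕ) then (1 : ℤ) else 0) -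
      (Pi.single (σ 2) 1 : Fin 3 → ℤ) j = 0 := by
    revert j σ
    decide
  rw [shift_aux _ _ _ _ this, add_zero]

theorem kv_d2 (z : Fin 3 → ℤ) (σ : Perm (Fin 3)) :
    kuhnVertex (z - Pi.single (σ 2) 1) (σ * swap 0 2) 2 = kuhnVertex z (σ * swap 0 1) 1 := by
  funext j
  simp only [kuhnVertex, Pi.sub_apply]
  refine shift_aux _ _ _ _ ?_
  revert j σ
  decide

theorem kv_d3 (z : Fin 3 → ℤ) (σ : Perm (Fin 3)) :
    kuhnVertex (z - Pi.single (σ 2) 1) (σ * swap 0 2) 3 = kuhnVertex z σ 2 := by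
  funext j
  simp only [kuhnVertex, Pi.sub_apply]
  refine shift_aux _ _ _ _ ?_
  revert j σ
  decide

theorem range_fin4 (v : Fin 4 → E3) : Set.range v = {v 0, v 2, v 1, v 3} := by
  ext x
  simp only [Set.mem_range, Set.mem_insert_iff, Set.mem_singleton_iff]
  constructor
  · rintro ⟨i, rfl⟩
    fin_cases i <;> simp
  · rintro (h | h | h | h)
    · exact ⟨0, h.symm⟩
    · exact ⟨2, h.symm⟩
    · exact ⟨1, h.symm⟩
    · exact ⟨3, h.symm⟩

/-- dihedral angle at the edge between the vertices 0 and 2 -/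
noncomputable def al (p : (Fin 3 → ℤ) → E3) (z : Fin 3 → ℤ) (σ : Perm (Fin 3)) : ℝ :=
  dih (p (kuhnVertex z σ 0)) (p (kuhnVertex z σ 2)) (p (kuhnVertex z σ 1)) (p (kuhnVertex z σ 3))

/-- dihedral angle at the edge between the vertices 1 and 3 -/
noncomputable def be (p : (Fin 3 → ℤ) → E3) (z : Fin 3 → ℤ) (σ : Perm (Fin 3)) : ℝ :=
  dih (p (kuhnVertex z σ 1)) (p (kuhnVertex z σ 3)) (p (kuhnVertex z σ 0)) (p (kuhnVertex z σ 2))

theorem al_nonneg (p : (Fin 3 → ℤ) → E3) (z : Fin 3 → ℤ) (σ : Perm (Fin 3)) : 0 ≤ al p z σ :=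
  dih_nonneg _ _ _ _

theorem be_nonneg (p : (Fin 3 → ℤ) → E3) (z : Fin 3 → ℤ) (σ : Perm (Fin 3)) : 0 ≤ be p z σ :=
  dih_nonneg _ _ _ _

variable {p : (Fin 3 → ℤ) → E3}

theorem det_ne (hp : IsKuhnDelaunay p) (z : Fin 3 → ℤ) (σ : Perm (Fin 3)) :
    det3 (p (kuhnVertex z σ 2) - p (kuhnVertex z σ 0)) (p (kuhnVertex z σ 1) -
      p (kuhnVertex z σ 0)) (p (kuhnVertex z σ 3) - p (kuhnVertex z σ 0)) ≠ 0 := by
  have h := det3_ne_zero _ (hp.nondeg z σ)
  intro h0
  apply h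
  rw [← neg_eq_zero, ← h0]
  simp only [det3]
  ring

theorem det_ne' (hp : IsKuhnDelaunay p) (z : Fin 3 → ℤ) (σ : Perm (Fin 3)) :
    det3 (p (kuhnVertex z σ 3) - p (kuhnVertex z σ 1)) (p (kuhnVertex z σ 0) -
      p (kuhnVertex z σ 1)) (p (kuhnVertex z σ 2) - p (kuhnVertex z σ 1)) ≠ 0 := by
  have h := det_ne hp z σ
  intro h0
  apply h
  have : det3 (p (kuhnVertex z σ 2) - p (kuhnVertex z σ 0)) (p (kuhnVertex z σ 1) -
      p (kuhnVertex z σ 0)) (p (kuhnVertex z σ 3) - p (kuhnVertex z σ 0)) =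
      det3 (p (kuhnVertex z σ 3) - p (kuhnVertex z σ 1)) (p (kuhnVertex z σ 0) -
      p (kuhnVertex z σ 1)) (p (kuhnVertex z σ 2) - p (kuhnVertex z σ 1)) ∨
      det3 (p (kuhnVertex z σ 2) - p (kuhnVertex z σ 0)) (p (kuhnVertex z σ 1) -
      p (kuhnVertex z σ 0)) (p (kuhnVertex z σ 3) - p (kuhnVertex z σ 0)) =
      - det3 (p (kuhnVertex z σ 3) - p (kuhnVertex z σ 1)) (p (kuhnVertex z σ 0) -
      p (kuhnVertex z σ 1)) (p (kuhnVertex z σ 2) - p (kuhnVertex z σ 1)) := by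
    simp only [det3, PiLp.sub_apply]
    first
    | (left; ring; done)
    | (right; ring; done)
  rcases this with h1 | h1
  · rw [h1, h0]
  · rw [h1, h0, neg_zero]

/-- The four angles at one marked edge. -/
theorem four_cells (hp : IsKuhnDelaunay p) (z : Fin 3 → ℤ) (σ : Perm (Fin 3)) :
    2 * π ≤ al p z σ + al p z (σ * swap 0 1) + be p (z - Pi.single (σ 2) 1) (σ * swap 0 2) +
      be p (z - Pi.single (σ 2) 1) (σ * cyc) := by
  set z' := z - Pi.single (σ 2) 1 with hz'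
  have hzz : z ≠ z' := by
    intro h
    have := congrFun h (σ 2)
    rw [hz', Pi.sub_apply, Pi.single_eq_same] at this
    omega
  set A := p z with hA
  set B := p (kuhnVertex z σ 2) with hB
  set P0 := p (kuhnVertex z σ 1) with hP0
  set P1 := p (kuhnVertex z σ 3) with hP1
  set P2 := p (kuhnVertex z (σ * swap 0 1) 1) with hP2
  set P3 := p z' with hP3
  have e1 : al p z σ = dih A B P0 P1 := by rw [al, kv_zero]
  have e2 : al p z (σ * swap 0 1) = dih A B P2 P1 := by rw [al, kv_zero, kv_s2, kv_s3]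
  have e3 : be p z' (σ * swap 0 2) = dih A B P3 P2 := by
    rw [be, kv_zero, hz', kv_d1, kv_d2, kv_d3]
  have e4 : be p z' (σ * cyc) = dih A B P3 P0 := by
    rw [be, kv_zero, hz', kv_c1, kv_c2, kv_c3]
  have n1 : det3 (B - A) (P0 - A) (P1 - A) ≠ 0 := by
    have := det_ne hp z σ
    rwa [kv_zero] at this
  have n2 : det3 (B - A) (P2 - A) (P1 - A) ≠ 0 := by
    have := det_ne hp z (σ * swap 0 1)
    rwa [kv_zero, kv_s2, kv_s3] at this
  have n3 : det3 (B - A) (P3 - A) (P2 - A) ≠ 0 := by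
    have := det_ne' hp z' (σ * swap 0 2)
    rw [kv_zero, hz', kv_d1, kv_d2, kv_d3] at this
    exact this
  have n4 : det3 (B - A) (P3 - A) (P0 - A) ≠ 0 := by
    have := det_ne' hp z' (σ * cyc)
    rw [kv_zero, hz', kv_c1, kv_c2, kv_c3] at this
    exact this
  have c1 : cell p z σ = convexHull ℝ {A, B, P0, P1} := by
    rw [cell, range_fin4, kv_zero]
  have c2 : cell p z (σ * swap 0 1) = convexHull ℝ {A, B, P2, P1} := by
    rw [cell, range_fin4, kv_zero, kv_s2, kv_s3]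
  have c3 : cell p z' (σ * swap 0 2) = convexHull ℝ {P3, P2, A, B} := by
    rw [cell, range_fin4, kv_zero, hz', kv_d1, kv_d2, kv_d3]
  have c4 : cell p z' (σ * cyc) = convexHull ℝ {P3, P0, A, B} := by
    rw [cell, range_fin4, kv_zero, hz', kv_c1, kv_c2, kv_c3]
  have perm1 : ∀ a b c d : E3, ({a, b, c, d} : Set E3) = {a, b, d, c} := by
    intro a b c d
    ext x; simp only [Set.mem_insert_iff, Set.mem_singleton_iff]; tauto
  have perm2 : ∀ a b c d : E3, ({a, b, c, d} : Set E3) = {c, d, b, a} := by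
    intro a b c d
    ext x; simp only [Set.mem_insert_iff, Set.mem_singleton_iff]; tauto
  have d12 := hp.disjoint z σ z (σ * swap 0 1) (by
    intro h
    have h2 : σ * 1 = σ * swap 0 1 := by rw [mul_one]; exact (Prod.mk.inj h).2
    have h3 : (1 : Perm (Fin 3)) = swap 0 1 := mul_left_cancel h2
    revert h3
    decide)
  have d23 := hp.disjoint z (σ * swap 0 1) z' (σ * swap 0 2) (by
    intro h
    exact hzz (Prod.mk.inj h).1)
  have d34 := hp.disjoint z' (σ * swap 0 2) z' (σ * cyc) (by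
    intro h
    have h2 : σ * swap 0 2 = σ * cyc := (Prod.mk.inj h).2
    have h3 : (swap 0 2 : Perm (Fin 3)) = cyc := mul_left_cancel h2
    revert h3
    decide)
  rw [c1, c2, perm1 A B P0 P1, perm1 A B P2 P1] at d12
  rw [c2, c3, perm2 P3 P2 A B] at d23
  rw [c3, c4, perm2 P3 P2 A B, perm2 P3 P0 A B, perm1 A B P2 P3, perm1 A B P0 P3] at d34
  have s1 : ∀ x y : E3, det3 (B - A) (x - A) (y - A) = - det3 (B - A) (y - A) (x - A) :=
    fun x y => det3_swap _ _ _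
  have f1 := facet_sign A B P1 P0 P2 (by rw [s1]; exact neg_ne_zero.2 n1)
    (by rw [s1]; exact neg_ne_zero.2 n2) d12
  have f2 := facet_sign A B P2 P1 P3 n2 (by rw [s1]; exact neg_ne_zero.2 n3) d23
  have f3 := facet_sign A B P3 P2 P0 n3 n4 d34
  rw [s1 P1 P0] at f1
  rw [s1 P2 P1] at f2
  rw [s1 P3 P2] at f3
  have := four_angles A B P0 P1 P2 P3 (by linarith) (by linarith) (by linarith)
  rw [dih_symm A B P2 P1, dih_symm A B P3 P2] at this
  rw [e1, e2, e3, e4]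
  exact this

end H36KT
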