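import Pool.Agent.H36.KT.Ineq

set_option autoImplicit false

/-!
# The inequality for one tetrahedron
-/

namespace H36KT

open Real

theorem dot3_self (x : E3) : dot3 x x = ‖x‖ ^ 2 := by
  rw [EuclideanSpace.norm_sq_eq]
  simp only [Fin.sum_univ_three, dot3, Real.norm_eq_abs, sq_abs]
  ring

theorem dot3_self_nonneg (x : E3) : 0 ≤ dot3 x x := by
  rw [dot3_self]; positivity

/-- Lagrange and Cauchy-Schwarz. -/
theorem det3_sq_le (u m h : E3) :
    det3 u m h ^ 2 ≤ (dot3 u u * dot3 m m - dot3 u m * dot3 u m) * dot3 h h := by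
  unfold det3 dot3
  generalize u 0 = u0, u 1 = u1, u 2 = u2, m 0 = m0, m 1 = m1, m 2 = m2, h 0 = h0, h 1 = h1,
    h 2 = h2
  have e : ((u0 * u0 + u1 * u1 + u2 * u2) * (m0 * m0 + m1 * m1 + m2 * m2) -
      (u0 * m0 + u1 * m1 + u2 * m2) * (u0 * m0 + u1 * m1 + u2 * m2)) *
      (h0 * h0 + h1 * h1 + h2 * h2) -
      (u0 * (m1 * h2 - m2 * h1) - u1 * (m0 * h2 - m2 * h0) + u2 * (m0 * h1 - m1 * h0)) ^ 2 =
      ((u1 * m2 - u2 * m1) * h1 - (u2 * m0 - u0 * m2) * h0) ^ 2 +
      ((u2 * m0 - u0 * m2) * h2 - (u0 * m1 - u1 * m0) * h1) ^ 2 +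
      ((u0 * m1 - u1 * m0) * h0 - (u1 * m2 - u2 * m1) * h2) ^ 2 := by
    ring
  nlinarith [sq_nonneg ((u1 * m2 - u2 * m1) * h1 - (u2 * m0 - u0 * m2) * h0),
    sq_nonneg ((u2 * m0 - u0 * m2) * h2 - (u0 * m1 - u1 * m0) * h1),
    sq_nonneg ((u0 * m1 - u1 * m0) * h0 - (u1 * m2 - u2 * m1) * h2)]

theorem det3_sq_le' (u m h : E3) :
    det3 u m h ^ 2 ≤ dot3 u u * dot3 m m * dot3 h h := by
  refine (det3_sq_le u m h).trans ?_
  have := dot3_self_nonneg h
  refine mul_le_mul_of_nonneg_right ?_ this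
  nlinarith [mul_self_nonneg (dot3 u m)]

theorem aux_frac {a b c w : ℝ} (ha : 0 < a) (hb : 0 < b) (hw : 0 < w)
    (hww : w ^ 2 = c ^ 2 + 4 * a * b) (hc : a - b ≤ c) : (a - b) * w ≤ c * (a + b) := by
  by_contra hcon
  have hcon : c * (a + b) < (a - b) * w := not_le.1 hcon
  have hab : 0 < a * b := mul_pos ha hb
  rcases le_or_gt a b with h | h
  · have h1 : (a - b) * w ≤ 0 := mul_nonpos_of_nonpos_of_nonneg (by linarith) hw.le
    have h2 : c < 0 := by
      by_contra h3
      have : 0 ≤ c * (a + b) := mul_nonneg (not_lt.1 h3) (by linarith)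
      linarith
    have h3 : ((b - a) * w) ^ 2 < ((-c) * (a + b)) ^ 2 := by
      refine pow_lt_pow_left₀ (by linarith) (mul_nonneg (by linarith) hw.le) (by norm_num)
    have h4 : ((b - a) * w) ^ 2 = (b - a) ^ 2 * (c ^ 2 + 4 * a * b) := by rw [mul_pow, hww]
    rw [h4] at h3
    have h5 : (a - b) ^ 2 ≥ c ^ 2 := by nlinarith
    nlinarith
  · have h2 : 0 < c := by linarith
    have h3 : (c * (a + b)) ^ 2 < ((a - b) * w) ^ 2 :=
      pow_lt_pow_left₀ hcon (by positivity) (by norm_num)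
    have h4 : ((a - b) * w) ^ 2 = (a - b) ^ 2 * (c ^ 2 + 4 * a * b) := by rw [mul_pow, hww]
    rw [h4] at h3
    have h5 : (a - b) ^ 2 ≤ c ^ 2 := by nlinarith
    nlinarith

theorem cos_two_arctan (x : ℝ) : cos (2 * arctan x) = (1 - x ^ 2) / (1 + x ^ 2) := by
  rw [Real.cos_two_mul, Real.cos_sq_arctan]
  have : (0 : ℝ) < 1 + x ^ 2 := by positivity
  field_simp
  ring

/-- Upper bound for a dihedral angle. -/
theorem dih_le (A B C D : E3) (hdet : det3 (B - A) (C - A) (D - A) ≠ 0) (T S V : ℝ)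
    (hT : 0 < T) (hS : 0 < S) (hTT : T ^ 2 = dot3 (B - A) (B - A))
    (hSS : S ^ 2 = dot3 (D - C) (D - C)) (hV : V = |det3 (B - A) (C - A) (D - A)|) :
    dih A B C D ≤ 2 * arctan (T * S ^ 2 / (2 * V)) := by
  have hV0 : 0 < V := by rw [hV]; exact abs_pos.2 hdet
  have hVV : V ^ 2 = det3 (B - A) (C - A) (D - A) ^ 2 := by rw [hV, sq_abs]
  set u := B - A with hu
  set x := C - A with hx
  set y := D - A with hy
  have hDC : D - C = y - x := by rw [hx, hy]; abel
  rw [hDC] at hSS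
  set c := dot3 u u * dot3 x y - dot3 u x * dot3 u y with hcdef
  -- lower bound for `c`
  have hc : V ^ 2 / S ^ 2 - T ^ 2 * S ^ 2 / 4 ≤ c := by
    set m : E3 := (1 / 2 : ℝ) • (x + y) with hm
    set h : E3 := (1 / 2 : ℝ) • (y - x) with hh
    have e1 : c = (dot3 u u * dot3 m m - dot3 u m * dot3 u m) -
        (dot3 u u * dot3 h h - dot3 u h * dot3 u h) := by
      rw [hcdef, hm, hh]
      simp only [dot3, PiLp.smul_apply, PiLp.add_apply, PiLp.sub_apply, smul_eq_mul]
      ring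
    have e2 : dot3 h h = S ^ 2 / 4 := by
      rw [hSS, hh]
      simp only [dot3, PiLp.smul_apply, PiLp.sub_apply, smul_eq_mul]
      ring
    have e3 : det3 u x y = 2 * det3 u m h := by
      rw [hm, hh]
      simp only [det3, PiLp.smul_apply, PiLp.add_apply, PiLp.sub_apply, smul_eq_mul]
      ring
    have e4 := det3_sq_le u m h
    rw [e2] at e4
    have e5 : V ^ 2 / S ^ 2 ≤ dot3 u u * dot3 m m - dot3 u m * dot3 u m := by
      rw [div_le_iff₀ (by positivity), hVV, e3]
      nlinarith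
    have e6 : dot3 u u * dot3 h h - dot3 u h * dot3 u h ≤ T ^ 2 * S ^ 2 / 4 := by
      rw [e2, ← hTT]
      nlinarith [mul_self_nonneg (dot3 u h)]
    rw [e1]
    linarith
  -- the complex number
  set z := phi u x y with hz
  have hzre : z.re = c := rfl
  have hsq : √(dot3 u u) = T := by
    rw [← hTT]; exact Real.sqrt_sq hT.le
  have hzim : z.im = T * det3 u x y := by
    rw [hz, phi, hsq]
  have hz0 : z ≠ 0 := by
    intro h0
    have : z.im = 0 := by rw [h0]; rfl
    rw [hzim] at this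
    rcases mul_eq_zero.1 this with h | h
    · exact hT.ne' h
    · exact hdet h
  have hnorm : ‖z‖ ^ 2 = c ^ 2 + T ^ 2 * V ^ 2 := by
    rw [Complex.sq_norm, Complex.normSq_apply, hzre, hzim, hVV]
    ring
  have hnpos : 0 < ‖z‖ := norm_pos_iff.2 hz0
  set a := V ^ 2 / S ^ 2 with ha
  set b := T ^ 2 * S ^ 2 / 4 with hb
  have ha0 : 0 < a := by positivity
  have hb0 : 0 < b := by positivity
  have hab : 4 * a * b = T ^ 2 * V ^ 2 := by
    rw [ha, hb]; field_simp
  have hfr := aux_frac ha0 hb0 hnpos (by rw [hnorm, hab]) hc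
  have hcosα : cos (dih A B C D) = c / ‖z‖ := by
    unfold dih
    rw [Real.cos_abs, ← hu, ← hx, ← hy, ← hz, Complex.cos_arg hz0, hzre]
  set τ := T * S ^ 2 / (2 * V) with hτ
  have hτ0 : 0 < τ := by positivity
  have hcosθ : cos (2 * arctan τ) = (a - b) / (a + b) := by
    rw [cos_two_arctan, div_eq_div_iff (by positivity) (by positivity)]
    have : τ ^ 2 * a = b := by
      rw [hτ, ha, hb]; field_simp; ring
    nlinarith
  have hle : cos (2 * arctan τ) ≤ cos (dih A B C D) := by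
    rw [hcosα, hcosθ, div_le_div_iff₀ (by positivity) hnpos]
    exact hfr
  by_contra hcon
  have hcon : 2 * arctan τ < dih A B C D := not_le.1 hcon
  have h1 : 0 ≤ 2 * arctan τ := by
    have := Real.arctan_pos.2 hτ0
    linarith
  have h2 : dih A B C D ≤ π := by
    unfold dih
    exact Complex.abs_arg_le_pi _
  have := Real.cos_lt_cos_of_nonneg_of_le_pi h1 h2 hcon
  linarith

/-- The inequality between the volume, the circumradius and a pair of opposite dihedral angles. -/
theorem star (A B C D o : E3) (ρ r : ℝ) (hr : 0 < r) (hρ : ρ ≤ r)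
    (hA : dist A o = ρ) (hB : dist B o = ρ) (hC : dist C o = ρ) (hD : dist D o = ρ)
    (hdet : det3 (B - A) (C - A) (D - A) ≠ 0) :
    |det3 (B - A) (C - A) (D - A)| / 6 ≤
      16 / (75 * √5) * r ^ 3 * (5 + π - dih A B C D - dih C D A B) := by
  have hρ0 : 0 ≤ ρ := by rw [← hA]; exact dist_nonneg
  have hq : ∀ X : E3, dist X o = ρ → dot3 (X - o) (X - o) = ρ ^ 2 := by
    intro X hX
    rw [dot3_self, ← dist_eq_norm, hX]
  have hA' := hq A hA
  have hB' := hq B hB
  have hC' := hq C hC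
  have hD' := hq D hD
  set V := |det3 (B - A) (C - A) (D - A)| with hV
  have hV0 : 0 < V := abs_pos.2 hdet
  have hdet2 : det3 (D - C) (A - C) (B - C) = - det3 (B - A) (C - A) (D - A) ∨
      det3 (D - C) (A - C) (B - C) = det3 (B - A) (C - A) (D - A) := by
    first
    | (right; simp only [det3, PiLp.sub_apply]; ring; done)
    | (left; simp only [det3, PiLp.sub_apply]; ring; done)
  have hV2 : V = |det3 (D - C) (A - C) (B - C)| := by
    rcases hdet2 with h | h
    · rw [h, abs_neg]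
    · rw [h]
  have hdet' : det3 (D - C) (A - C) (B - C) ≠ 0 := by
    rw [← abs_pos, ← hV2]; exact hV0
  have hTpos : 0 < dot3 (B - A) (B - A) := by
    rcases (dot3_self_nonneg (B - A)).lt_or_eq with h | h
    · exact h
    · exfalso
      have := det3_sq_le' (B - A) (C - A) (D - A)
      rw [← h] at this
      have h2 : 0 < det3 (B - A) (C - A) (D - A) ^ 2 := by positivity
      linarith
  have hSpos : 0 < dot3 (D - C) (D - C) := by
    rcases (dot3_self_nonneg (D - C)).lt_or_eq with h | h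
    · exact h
    · exfalso
      have := det3_sq_le' (D - C) (A - C) (B - C)
      rw [← h] at this
      have h2 : 0 < det3 (D - C) (A - C) (B - C) ^ 2 := by positivity
      linarith
  set T := √(dot3 (B - A) (B - A)) with hT
  set S := √(dot3 (D - C) (D - C)) with hS
  have hT0 : 0 < T := Real.sqrt_pos.2 hTpos
  have hS0 : 0 < S := Real.sqrt_pos.2 hSpos
  have hTT : T ^ 2 = dot3 (B - A) (B - A) := Real.sq_sqrt hTpos.le
  have hSS : S ^ 2 = dot3 (D - C) (D - C) := Real.sq_sqrt hSpos.le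
  have hα := dih_le A B C D hdet T S V hT0 hS0 hTT hSS hV
  have hβ := dih_le C D A B hdet' S T V hS0 hT0 hSS hTT hV2
  -- `V² ≤ T² S² |N - M|²`
  set w : E3 := (1 / 2 : ℝ) • ((C - o) + (D - o) - (A - o) - (B - o)) with hw
  have hVw : V ^ 2 ≤ T ^ 2 * S ^ 2 * dot3 w w := by
    have h1 := det3_sq_le' (B - A) (D - C) w
    have h2 : det3 (B - A) (D - C) w = - det3 (B - A) (C - A) (D - A) ∨
        det3 (B - A) (D - C) w = det3 (B - A) (C - A) (D - A) := by
      rw [hw]
      first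
      | (right; simp only [det3, PiLp.smul_apply, PiLp.add_apply, PiLp.sub_apply, smul_eq_mul]
         ring; done)
      | (left; simp only [det3, PiLp.smul_apply, PiLp.add_apply, PiLp.sub_apply, smul_eq_mul]
         ring; done)
    have h3 : det3 (B - A) (D - C) w ^ 2 = V ^ 2 := by
      rw [hV, sq_abs]
      rcases h2 with h | h
      · rw [h, neg_sq]
      · rw [h]
    rw [h3, ← hTT, ← hSS] at h1
    exact h1
  have hww : dot3 w w ≤ 4 * ρ ^ 2 - T ^ 2 / 2 - S ^ 2 / 2 := by
    have e : 4 * ρ ^ 2 - T ^ 2 / 2 - S ^ 2 / 2 - dot3 w w =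
        dot3 ((1 / 2 : ℝ) • ((A - o) + (B - o) + (C - o) + (D - o)))
          ((1 / 2 : ℝ) • ((A - o) + (B - o) + (C - o) + (D - o))) := by
      rw [hTT, hSS, hw]
      have e1 : 4 * ρ ^ 2 = dot3 (A - o) (A - o) + dot3 (B - o) (B - o) + dot3 (C - o) (C - o) +
          dot3 (D - o) (D - o) := by rw [hA', hB', hC', hD']; ring
      rw [e1]
      simp only [dot3, PiLp.smul_apply, PiLp.add_apply, PiLp.sub_apply, smul_eq_mul]
      ring
    have := dot3_self_nonneg ((1 / 2 : ℝ) • ((A - o) + (B - o) + (C - o) + (D - o)))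
    linarith
  have hρr : ρ ^ 2 ≤ r ^ 2 := pow_le_pow_left₀ hρ0 hρ 2
  set Dd := V / (T * S) with hDd
  have hDd0 : 0 < Dd := by positivity
  have hfin := star_real (S / 2) (T / 2) Dd r (by positivity) (by positivity) hDd0 hr (by
    have h1 : Dd ^ 2 ≤ dot3 w w := by
      rw [hDd, div_pow, div_le_iff₀ (by positivity)]
      nlinarith
    nlinarith [sq_nonneg (S - T)])
  have e1 : 2 / 3 * (S / 2) * (T / 2) * Dd = V / 6 := by
    rw [hDd]; field_simp; norm_num
  have e2 : S / 2 / Dd = T * S ^ 2 / (2 * V) := by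
    rw [hDd]; field_simp
  have e3 : T / 2 / Dd = S * T ^ 2 / (2 * V) := by
    rw [hDd]; field_simp
  rw [e1, e2, e3] at hfin
  refine hfin.trans ?_
  have hK : 0 ≤ 16 / (75 * √5) * r ^ 3 := by positivity
  refine mul_le_mul_of_nonneg_left ?_ hK
  linarith

end H36KT
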